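import Pool.Agent.Lib.MP_fadef1_lc.Circ

/-!
# Walks of lanes through the array

A lane state at a cell: `L g z` is the lane `z` of the group `g` entering the cell from the left,
`T z` is the lane `z` entering the cell from above. Each cell is a gate, given by its letter and
by the data of the level.
-/

namespace Pool.Agent.MP_fadef1_lc

/-- A lane state: `L g z` enters a cell from the left, `T z` from above. -/
inductive Lane
  | L (g z : ℕ)
  | T (z : ℕ)
deriving DecidableEq

/-- lane states of a level with `w` lanes -/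
def Lane.Ok (w : ℕ) : Lane → Prop
  | Lane.L g z => g ≤ 84 ∧ z < w
  | Lane.T z => z < w

/-- output of a cell `1` for the lane `z` of the group `43 + j` -/
def slotStep (D : Data) (j z : ℕ) : Option Lane :=
  if j % 3 ≠ 2 then none
  else if j = 2 then (if D.al then some (Lane.L 2 z) else none)
  else if j ≤ 38 ∧ (j / 3 - 1) % 3 ≠ 1 then
    (D.g ((j / 3 - 1) / 3) (((j / 3 - 1) % 3) / 2, z)).map fun s =>
      Lane.L (3 * (1 + 3 * ((j / 3 - 1) / 3) + 2 * s.1) + 2) s.2
  else none

/-- The gate of a cell with letter `b`. -/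
def gstep (D : Data) (b : Bool) : Lane → Option Lane
  | Lane.T z => if b then some (Lane.L 42 z) else if D.mort then some (Lane.L 84 z) else none
  | Lane.L g z =>
    if g = 42 then (if b then some (Lane.T z) else some (Lane.L 42 z))
    else if D.mort = false then none
    else if b then
      (if g = 85 then some (Lane.L 41 (D.w - 1)) else if g < 42 then none
       else slotStep D (g - 43) z)
    else
      (if g = 0 then some (Lane.T z) else if g = 43 ∨ 84 < g then none
       else some (Lane.L (g - 1) z))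

/-- A cell with an incoming lane. -/
@[ext] structure Pos where
  i : ℕ
  j : ℕ
  s : Lane
deriving DecidableEq

/-- the next cell when `s` leaves the cell of `p` -/
def Pos.out (p : Pos) : Lane → Pos
  | Lane.L g z => ⟨p.i, p.j + 1, Lane.L g z⟩
  | Lane.T z => ⟨p.i + 1, p.j, Lane.T z⟩

/-- translate -/
def Pos.sh (p : Pos) (a c : ℕ) : Pos := ⟨a + p.i, c + p.j, p.s⟩

/-- one step of the walk in the array `X` -/
def nxt (D : Data) (X : ℕ → ℕ → Bool) (p : Pos) : Option Pos :=
  (gstep D (X p.i p.j) p.s).map p.out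

/-- `n` steps of the walk -/
def walkN (D : Data) (X : ℕ → ℕ → Bool) : ℕ → Pos → Option Pos
  | 0, p => some p
  | n + 1, p => (nxt D X p).bind (walkN D X n)

/-- the walk ends -/
def Dies (D : Data) (X : ℕ → ℕ → Bool) (p : Pos) : Prop := ∃ n, walkN D X n p = none

/-- the walk from `p` passes `q` -/
def Reach (D : Data) (X : ℕ → ℕ → Bool) : Pos → Pos → Prop :=
  Relation.ReflTransGen fun p q => nxt D X p = some q

/-- number of steps before the walk ends -/
noncomputable def rem (D : Data) (X : ℕ → ℕ → Bool) (p : Pos) : ℕ :=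
  sInf {n | walkN D X (n + 1) p = none}

/-- one step inside a block of type `b` (local coordinates; the target may be outside) -/
def BStep (P : Par) (D : Data) (b : Bool) (p q : Pos) : Prop :=
  p.i < P.K ∧ p.j < P.K ∧ nxt D (P.bit b) p = some q

/-- walk inside a block of type `b`; only the last position may be outside -/
def LReach (P : Par) (D : Data) (b : Bool) : Pos → Pos → Prop :=
  Relation.ReflTransGen (BStep P D b)

/-- the walk ends inside a block of type `b` -/
def LDies (P : Par) (D : Data) (b : Bool) (p : Pos) : Prop :=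
  ∃ q, LReach P D b p q ∧ q.i < P.K ∧ q.j < P.K ∧ nxt D (P.bit b) q = none

namespace Par

variable (P : Par)

/-- local position in row `i`, coordinate `x = j + K - i - 1` -/
def ps (i x : ℕ) (s : Lane) : Pos := ⟨i, i + x + 1 - P.K, s⟩

/-- lane `z` of the wire in channel `c` at the top of superband `A` -/
def TP (A c z : ℕ) : Pos := P.ps (6 * A) (3 * c + 1) (Lane.T z)

end Par

/-- effect of an event on the lane `p.2` of the wire `p.1` -/
def estep (D : Data) (e : Ev) (p : ℕ × ℕ) : Option (ℕ × ℕ) :=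
  if e.t = 1 then (if p.1 = e.x then some (e.y, p.2) else some p)
  else if e.t = 2 then
    (if p.1 = e.x then
      (if D.mort then (D.g e.y (0, p.2)).map fun s => (e.x + 14 + 2 * s.1, s.2) else none)
    else if p.1 = e.x + 2 then
      (if D.mort then (D.g e.y (1, p.2)).map fun s => (e.x + 14 + 2 * s.1, s.2) else none)
    else some p)
  else if e.t = 3 then
    (if p.1 = e.x then (if D.mort && D.al then some (e.x + 14, p.2) else none) else some p)
  else if e.t = 5 then (if p.1 = e.x then none else some p)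
  else some p

/-- last channel touched by an event -/
def lst (e : Ev) : ℕ :=
  if e.t = 1 then e.y else if e.t = 2 then e.x + 16 else if e.t = 3 then e.x + 14 else e.x

/-- the event `e` is legal for the wires `W` -/
structure EvOk (W : ℕ → Bool) (e : Ev) : Prop where
  t : e.t ≤ 5
  t1 : e.t = 1 → W e.x = true ∧ e.x + 2 ≤ e.y ∧
    ∀ c, W c = true → c ≠ e.x → c + 2 ≤ e.x ∨ e.y + 2 ≤ c
  t2 : e.t = 2 → e.y < 4 ∧ W e.x = true ∧ W (e.x + 2) = true ∧
    ∀ c, W c = true → c ≠ e.x → c ≠ e.x + 2 → c + 2 ≤ e.x ∨ e.x + 19 ≤ c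
  t3 : e.t = 3 → W e.x = true ∧ ∀ c, W c = true → c ≠ e.x → c + 2 ≤ e.x ∨ e.x + 17 ≤ c
  t4 : e.t = 4 → ∀ c, W c = true → c + 2 ≤ e.x ∨ e.x + 2 ≤ c
  t5 : e.t = 5 → W e.x = true

/-- superband `A` of the pattern `h(b)` is legal -/
structure VA (P : Par) (b : Bool) (A : ℕ) : Prop where
  sep : ∀ c c', P.W b A c = true → P.W b A c' = true → c < c' → c + 2 ≤ c'
  lo : ∀ c, P.W b A c = true → P.Q ≤ c + 2 * A + 1
  hi : ∀ c, P.W b A c = true → c + 2 * A + 1 = 2 * P.Q ∨ c + 2 * A + 3 ≤ 2 * P.Q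
  ok : EvOk (P.W b A) (P.ev b A)
  quiet : (P.ev b A).t ≠ 0 → P.W b A (P.exitc A) = false ∧ P.entry b A = false ∧
    P.entry b (A + 1) = false ∧ 4 ≤ A ∧ P.Q + 9 ≤ (P.ev b A).x + 2 * A ∧
    lst (P.ev b A) + 2 * A + 8 ≤ 2 * P.Q
  zr : P.zrow b A = true → (∀ c, P.W b A c = false) ∧ (P.ev b A).t = 0

/-- one superband step of a lane inside a block: `(A, c, z)` -/
def LStep (P : Par) (D : Data) (b : Bool) (u v : ℕ × ℕ × ℕ) : Prop :=
  u.1 < P.QQ ∧ P.W b u.1 u.2.1 = true ∧ P.Q ≤ u.2.1 + 2 * u.1 ∧ u.2.1 + 2 * u.1 + 1 ≠ 2 * P.Q ∧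
    ¬ (u.1 = 0 ∧ b = true ∧ u.2.1 = P.Q + 13) ∧ v.1 = u.1 + 1 ∧
    estep D (P.ev b u.1) u.2 = some v.2

/-- path of a lane through superbands -/
def LPath (P : Par) (D : Data) (b : Bool) : ℕ × ℕ × ℕ → ℕ × ℕ × ℕ → Prop :=
  Relation.ReflTransGen (LStep P D b)

/-- the lane is killed by an event -/
def LDead (P : Par) (D : Data) (b : Bool) (u : ℕ × ℕ × ℕ) : Prop :=
  ∃ v, LPath P D b u v ∧ v.1 < P.QQ ∧ P.W b v.1 v.2.1 = true ∧ P.Q ≤ v.2.1 + 2 * v.1 ∧
    v.2.1 + 2 * v.1 + 1 ≠ 2 * P.Q ∧ ¬ (v.1 = 0 ∧ b = true ∧ v.2.1 = P.Q + 13) ∧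
    estep D (P.ev b v.1) v.2 = none

/-- level `r+1` position to level `r` position -/
def Par.emb (P : Par) (w : ℕ) (p : Pos) : Pos :=
  match p.s with
  | Lane.L g l =>
    if g = 85 then ⟨p.i * P.K, p.j * P.K, Lane.L 85 0⟩
    else ⟨p.i * P.K + 6 * (P.base (84 - g) + (P.N - 1 - l / w)), p.j * P.K, Lane.L 42 (l % w)⟩
  | Lane.T l =>
    ⟨p.i * P.K, p.j * P.K + (P.K - 1 - 6 * (P.base 42 + (P.N - 1 - l / w))), Lane.T (l % w)⟩

end Pool.Agent.MP_fadef1_lc
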