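import Pool.Agent.Lib.MP_fadef1_lc.Mg.G010

/-! Walks in the array and in the blocks. -/

namespace Pool.Agent.MP_fadef1_lc

variable {D : Data} {X : ℕ → ℕ → Bool} {p q : Pos} {P : Par}

private theorem wk_slot_ok (hD : D.Ok) {j z : ℕ} {s' : Lane} (hz : z < D.w)
    (h : slotStep D j z = some s') : s'.Ok D.w := by
  unfold slotStep at h
  split_ifs at h with h1 h2 h3 h4
  · obtain rfl := Option.some.inj h
    exact ⟨by omega, hz⟩
  · obtain ⟨⟨s1, z1⟩, h5, h6⟩ := Option.map_eq_some_iff.mp h
    have := hD.2 _ _ _ _ _ (by omega) (by omega) hz h5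
    subst h6
    refine ⟨?_, this.2⟩
    have h7 := this.1
    change 3 * (1 + 3 * ((j / 3 - 1) / 3) + 2 * s1) + 2 ≤ 84
    omega

/-- lane states stay legal -/
theorem gstep_ok (hD : D.Ok) {b : Bool} {s s' : Lane} (hs : s.Ok D.w ∨ s = Lane.L 85 0)
    (h : gstep D b s = some s') : s'.Ok D.w := by
  have hw := hD.1
  have hsz : ∀ g z, s = Lane.L g z → g ≤ 85 ∧ z < D.w := by
    intro g z e
    rcases hs with hs | hs
    · rw [e] at hs
      exact ⟨by have := hs.1; omega, hs.2⟩
    · rw [e] at hs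
      injection hs with h1 h2
      exact ⟨by omega, by omega⟩
  cases s with
  | T z =>
    have hz : z < D.w := by
      rcases hs with hs | hs
      · exact hs
      · exact absurd hs (by simp)
    unfold gstep at h
    simp only at h
    split_ifs at h with h1 h2
    · obtain rfl := Option.some.inj h
      exact ⟨by omega, hz⟩
    · obtain rfl := Option.some.inj h
      exact ⟨by omega, hz⟩
  | L g z =>
    obtain ⟨hg, hz⟩ := hsz g z rfl
    unfold gstep at h
    simp only at h
    split_ifs at h with h1 h2 h3 h4 h5 h6 h7 h8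
    all_goals first
      | exact wk_slot_ok hD hz h
      | (obtain rfl := Option.some.inj h
         first
           | exact hz
           | exact ⟨by omega, hz⟩
           | exact ⟨by omega, by omega⟩)

theorem nxt_ok (hD : D.Ok) (hs : p.s.Ok D.w ∨ p.s = Lane.L 85 0) (h : nxt D X p = some q) :
    q.s.Ok D.w := by
  unfold nxt at h
  obtain ⟨s', h1, h2⟩ := Option.map_eq_some_iff.mp h
  have h3 := gstep_ok hD hs h1
  subst h2
  cases s' with
  | T z => exact h3
  | L g z => exact h3

theorem reach_ok (hD : D.Ok) (hs : p.s.Ok D.w) (h : Reach D X p q) : q.s.Ok D.w := by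
  induction h with
  | refl => exact hs
  | tail _ h2 ih => exact nxt_ok hD (Or.inl ih) h2

theorem arr_loc (hP : P.Ok) (bi bj : ℕ) {i j : ℕ} (hi : i < P.K) (hj : j < P.K) :
    P.arr (bi * P.K + i) (bj * P.K + j) = P.bit (P.arr bi bj) i j := by
  have hK : 0 < P.K := by omega
  rw [arr_spec hP]
  have e1 : (bi * P.K + i) / P.K = bi := by
    rw [mul_comm, Nat.mul_add_div hK, Nat.div_eq_of_lt hi, add_zero]
  have e2 : (bj * P.K + j) / P.K = bj := by
    rw [mul_comm, Nat.mul_add_div hK, Nat.div_eq_of_lt hj, add_zero]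
  have e3 : (bi * P.K + i) % P.K = i := by
    rw [mul_comm, Nat.mul_add_mod, Nat.mod_eq_of_lt hi]
  have e4 : (bj * P.K + j) % P.K = j := by
    rw [mul_comm, Nat.mul_add_mod, Nat.mod_eq_of_lt hj]
  rw [e1, e2, e3, e4]

private theorem wk_out_sh (p : Pos) (a c : ℕ) (s : Lane) : (p.sh a c).out s = (p.out s).sh a c := by
  cases s <;> simp [Pos.out, Pos.sh] <;> omega

private theorem wk_nxt_sh (hP : P.Ok) (bi bj : ℕ) {p : Pos} (hi : p.i < P.K) (hj : p.j < P.K) :
    nxt D P.arr (p.sh (bi * P.K) (bj * P.K)) =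
      (nxt D (P.bit (P.arr bi bj)) p).map fun q => q.sh (bi * P.K) (bj * P.K) := by
  unfold nxt
  have e : P.arr (p.sh (bi * P.K) (bj * P.K)).i (p.sh (bi * P.K) (bj * P.K)).j =
      P.bit (P.arr bi bj) p.i p.j := arr_loc hP bi bj hi hj
  rw [e]
  have e2 : (p.sh (bi * P.K) (bj * P.K)).s = p.s := rfl
  rw [e2, Option.map_map]
  congr 1
  funext s
  exact wk_out_sh p _ _ s

theorem lreach_lift (hP : P.Ok) (bi bj : ℕ) (h : LReach P D (P.arr bi bj) p q) :
    Reach D P.arr (p.sh (bi * P.K) (bj * P.K)) (q.sh (bi * P.K) (bj * P.K)) := by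
  induction h with
  | refl => exact Relation.ReflTransGen.refl
  | tail _ h2 ih =>
    refine ih.tail ?_
    obtain ⟨h3, h4, h5⟩ := h2
    rw [wk_nxt_sh hP bi bj h3 h4, h5]
    rfl

theorem ldies_lift (hP : P.Ok) (bi bj : ℕ) (h : LDies P D (P.arr bi bj) p) :
    Dies D P.arr (p.sh (bi * P.K) (bj * P.K)) := by
  obtain ⟨q, h1, h2, h3, h4⟩ := h
  refine dies_of_reach (lreach_lift hP bi bj h1) (dies_of_none ?_)
  rw [wk_nxt_sh hP bi bj h2 h3, h4]
  rfl

theorem ldies_of_lreach {b : Bool} (h : LReach P D b p q) (hq : LDies P D b q) :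
    LDies P D b p := by
  obtain ⟨r, h1, h2⟩ := hq
  exact ⟨r, Relation.ReflTransGen.trans h h1, h2⟩

private theorem wk_exit_aux (hP : P.Ok) (D : Data) : ∀ n : ℕ, ∀ p : Pos,
    (p.i / P.K + 1) * P.K + (p.j / P.K + 1) * P.K ≤ p.i + p.j + n →
    Dies D P.arr p ∨
    (∃ g z i, i / P.K = p.i / P.K ∧
      Reach D P.arr p ⟨i, (p.j / P.K + 1) * P.K, Lane.L g z⟩) ∨
    (∃ z j, j / P.K = p.j / P.K ∧
      Reach D P.arr p ⟨(p.i / P.K + 1) * P.K, j, Lane.T z⟩) := by
  have hK : 0 < P.K := by have := K_pos hP; omega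
  intro n
  induction n with
  | zero =>
    intro p h
    exfalso
    have h1 := Nat.lt_mul_div_succ p.i hK
    have h2 := Nat.lt_mul_div_succ p.j hK
    rw [mul_comm] at h1 h2
    omega
  | succ n ih =>
    intro p h
    rcases hn : nxt D P.arr p with _ | q
    · exact Or.inl (dies_of_none hn)
    · have hpq : Reach D P.arr p q := Relation.ReflTransGen.single hn
      have h1 := Nat.lt_mul_div_succ p.i hK
      have h2 := Nat.lt_mul_div_succ p.j hK
      rw [mul_comm] at h1 h2
      have hn' := hn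
      unfold nxt at hn'
      obtain ⟨s', _, h4⟩ := Option.map_eq_some_iff.mp hn'
      cases s' with
      | L g z =>
        subst h4
        rcases Nat.lt_or_ge (p.j + 1) ((p.j / P.K + 1) * P.K) with h5 | h5
        · have h6 : (p.j + 1) / P.K = p.j / P.K := by
            apply le_antisymm
            · have : (p.j + 1) / P.K < p.j / P.K + 1 := (Nat.div_lt_iff_lt_mul hK).2 h5
              omega
            · exact Nat.div_le_div_right (by omega)
          have h7 := ih (p.out (Lane.L g z)) (by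
            change (p.i / P.K + 1) * P.K + ((p.j + 1) / P.K + 1) * P.K ≤ p.i + (p.j + 1) + n
            rw [h6]; omega)
          change Dies D P.arr (p.out (Lane.L g z)) ∨
            (∃ g' z' i, i / P.K = p.i / P.K ∧
              Reach D P.arr (p.out (Lane.L g z)) ⟨i, ((p.j + 1) / P.K + 1) * P.K, Lane.L g' z'⟩) ∨
            (∃ z' j, j / P.K = (p.j + 1) / P.K ∧
              Reach D P.arr (p.out (Lane.L g z)) ⟨(p.i / P.K + 1) * P.K, j, Lane.T z'⟩) at h7
          rw [h6] at h7
          rcases h7 with h7 | ⟨g', z', i, h8, h9⟩ | ⟨z', j, h8, h9⟩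
          · exact Or.inl (dies_of_reach hpq h7)
          · exact Or.inr (Or.inl ⟨g', z', i, h8, hpq.trans h9⟩)
          · exact Or.inr (Or.inr ⟨z', j, h8, hpq.trans h9⟩)
        · refine Or.inr (Or.inl ⟨g, z, p.i, rfl, ?_⟩)
          have h6 : (p.j / P.K + 1) * P.K = p.j + 1 := by omega
          rw [h6]
          exact hpq
      | T z =>
        subst h4
        rcases Nat.lt_or_ge (p.i + 1) ((p.i / P.K + 1) * P.K) with h5 | h5
        · have h6 : (p.i + 1) / P.K = p.i / P.K := by
            apply le_antisymm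
            · have : (p.i + 1) / P.K < p.i / P.K + 1 := (Nat.div_lt_iff_lt_mul hK).2 h5
              omega
            · exact Nat.div_le_div_right (by omega)
          have h7 := ih (p.out (Lane.T z)) (by
            change ((p.i + 1) / P.K + 1) * P.K + (p.j / P.K + 1) * P.K ≤ (p.i + 1) + p.j + n
            rw [h6]; omega)
          change Dies D P.arr (p.out (Lane.T z)) ∨
            (∃ g' z' i, i / P.K = (p.i + 1) / P.K ∧
              Reach D P.arr (p.out (Lane.T z)) ⟨i, (p.j / P.K + 1) * P.K, Lane.L g' z'⟩) ∨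
            (∃ z' j, j / P.K = p.j / P.K ∧
              Reach D P.arr (p.out (Lane.T z)) ⟨((p.i + 1) / P.K + 1) * P.K, j, Lane.T z'⟩) at h7
          rw [h6] at h7
          rcases h7 with h7 | ⟨g', z', i, h8, h9⟩ | ⟨z', j, h8, h9⟩
          · exact Or.inl (dies_of_reach hpq h7)
          · exact Or.inr (Or.inl ⟨g', z', i, h8, hpq.trans h9⟩)
          · exact Or.inr (Or.inr ⟨z', j, h8, hpq.trans h9⟩)
        · refine Or.inr (Or.inr ⟨z, p.j, rfl, ?_⟩)
          have h6 : (p.i / P.K + 1) * P.K = p.i + 1 := by omega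
          rw [h6]
          exact hpq

/-- A walk ends or leaves its block to the right or downwards. -/
theorem block_exit (hP : P.Ok) (D : Data) (p : Pos) :
    Dies D P.arr p ∨
    (∃ g z i, i / P.K = p.i / P.K ∧
      Reach D P.arr p ⟨i, (p.j / P.K + 1) * P.K, Lane.L g z⟩) ∨
    (∃ z j, j / P.K = p.j / P.K ∧
      Reach D P.arr p ⟨(p.i / P.K + 1) * P.K, j, Lane.T z⟩) :=
  wk_exit_aux hP D ((p.i / P.K + 1) * P.K + (p.j / P.K + 1) * P.K) p (Nat.le_add_left _ _)

end Pool.Agent.MP_fadef1_lc
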