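import Pool.Agent.Lib.MP_fadef1_lc.I.Ring
import Pool.Agent.Lib.MP_fadef1_lc.I.Wk

/-! The rank of the cells holding `0`. -/

namespace Pool.Agent.MP_fadef1_lc

/-- first channel of the chain of zeros in a gate row -/
def s0 (e : Ev) : ℕ := if e.t = 2 ∧ e.y % 2 = 1 then e.x + 2 else e.x
/-- last channel of the chain of zeros in a gate row -/
def s1 (e : Ev) : ℕ := if e.t = 2 ∧ e.y % 2 = 0 then e.x + 16 else e.x + 14
/-- group of the lane at the trigger cell -/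
def trL (e : Ev) : ℕ := 85 - ((3 * trig e + 2) - (3 * s0 e + 1))

/-- Classes of cells `0`: `s p t`: the cell belongs to a chain following the walk from `p`;
`j`: junk; `l`: junk on the left of a gate. -/
inductive Cl
  | s (p : Pos) (t : ℕ)
  | j
  | l

/-- class of the cell `(I,J)` holding `0`, with local coordinates `(i,j)` in a block of type `b` -/
def Par.cls (P : Par) (b : Bool) (I J i j : ℕ) : Cl :=
  if i % 6 = 0 then
    (if P.zrow b (i / 6) then Cl.s ⟨I, J, Lane.L 42 0⟩ 0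
    else if b = true ∧ i = 0 ∧ P.K ≤ j + P.K - i - 1 ∧ j + P.K - i - 1 ≤ P.K + 41 then
      (if j + P.K - i - 1 ≤ P.K + 39 then
        Cl.s ⟨I, J, Lane.L (P.K + 41 - (j + P.K - i - 1)) 0⟩ 0 else Cl.j)
    else Cl.s ⟨I, J + 1, Lane.T 0⟩ 0)
  else if i % 6 = 1 then
    (if j + 1 = P.K then
      (if P.W b (i / 6) (P.exitc (i / 6)) = true ∨ P.zrow b (i / 6) = true then
        Cl.s ⟨I - 1, J + 1, Lane.L 42 0⟩ 1 else Cl.j)
    else if P.cl b (i / 6) ((j + P.K - i - 1) / 3) then Cl.s ⟨I, J + 1, Lane.T 0⟩ 0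
    else if ((P.ev b (i / 6)).t = 2 ∨ (P.ev b (i / 6)).t = 3) ∧
        (j + P.K - i - 1) / 3 = trig (P.ev b (i / 6)) + 1 then
      Cl.s ⟨I + 1, J, Lane.L (trL (P.ev b (i / 6))) 0⟩ 0
    else Cl.j)
  else if i % 6 = 2 then
    (if (P.ev b (i / 6)).t = 1 then
      (if 3 * (P.ev b (i / 6)).x + 2 ≤ j + P.K - i - 1 ∧
          j + P.K - i - 1 ≤ 3 * (P.ev b (i / 6)).y + 1 then Cl.s ⟨I, J, Lane.L 42 0⟩ 0
      else Cl.s ⟨I, J + 1, Lane.T 0⟩ 1)
    else if ((P.ev b (i / 6)).t = 2 ∨ (P.ev b (i / 6)).t = 3) ∧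
        3 * (P.ev b (i / 6)).x ≤ j + P.K - i - 1 ∧
        j + P.K - i - 1 ≤ 3 * last (P.ev b (i / 6)) + 2 then
      (if j + P.K - i - 1 < 3 * s0 (P.ev b (i / 6)) then Cl.l
      else if j + P.K - i - 1 = 3 * s0 (P.ev b (i / 6)) then Cl.s ⟨I, J + 1, Lane.T 0⟩ 1
      else if j + P.K - i - 1 = 3 * s0 (P.ev b (i / 6)) + 1 then Cl.s ⟨I, J, Lane.T 0⟩ 0
      else if j + P.K - i - 1 < 3 * trig (P.ev b (i / 6)) + 2 then
        Cl.s ⟨I, J, Lane.L (85 - (j + P.K - i - 1 - (3 * s0 (P.ev b (i / 6)) + 1))) 0⟩ 0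
      else if j + P.K - i - 1 ≤ 3 * s1 (P.ev b (i / 6)) + 1 then
        Cl.s ⟨I, J, Lane.L (3 * s1 (P.ev b (i / 6)) + 2 - (j + P.K - i - 1)) 0⟩ 0
      else Cl.j)
    else Cl.s ⟨I, J + 1, Lane.T 0⟩ 1)
  else if i % 6 = 3 then
    (if (P.ev b (i / 6)).t = 1 ∧ (j + P.K - i - 1) / 3 = (P.ev b (i / 6)).x then
      Cl.s ⟨I - 1, J + 1, Lane.L 42 0⟩ 1
    else Cl.s ⟨I, J + 1, Lane.T 0⟩ 0)
  else if i % 6 = 4 then
    (if (j + P.K - i - 1) % 3 = 0 then Cl.s ⟨I, J + 1, Lane.T 0⟩ 0 else Cl.j)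
  else Cl.s ⟨I, J + 1, Lane.T 0⟩ 0

/-- rank of a class -/
noncomputable def Par.rkc (P : Par) (i j : ℕ) : Cl → ℕ
  | Cl.s p t => 7 * P.K + 10 + 2 * rem data0 P.arr p + t
  | Cl.j => 1 + (3 * P.K - (i + 2 * j))
  | Cl.l => 3 * P.K + 2 + (i + 2 * j)

/-- rank of a cell: `0` for the cells holding `1` -/
noncomputable def Par.rk (P : Par) (v : ℕ × ℕ) : ℕ :=
  if P.arr v.1 v.2 then 0
  else P.rkc (v.1 % P.K) (v.2 % P.K)
    (P.cls (P.arr (v.1 / P.K) (v.2 / P.K)) v.1 v.2 (v.1 % P.K) (v.2 % P.K))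

/-- the ring condition at `(I,J)` -/
def RC (P : Par) (I J : ℕ) : Prop :=
  ∃ st : Fin 8 → Fin 3, ringChk st = true ∧ (∀ k : Fin 8, k.val % 2 = 0 → st k ≠ 1) ∧
    (∀ k, st k = 0 → ∃ c, nbr I J k = some c ∧ P.rk c < P.rk (I, J)) ∧
    ∀ k c, st k = 2 → nbr I J k = some c → P.rk (I, J) < P.rk c

/-- all walks are finite -/
def AllFin (P : Par) : Prop := ∀ p : Pos, p.s.Ok 1 → Dies data0 P.arr p

variable {P : Par} {I J i j bi bj : ℕ}

theorem rk_one (h : P.arr I J = true) : P.rk (I, J) = 0 := by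
  unfold Par.rk
  rw [if_pos h]

theorem rk_pos (hP : P.Ok) (h : P.arr I J = false) : 0 < P.rk (I, J) := by
  have hK := K_pos hP
  unfold Par.rk
  rw [if_neg (by rw [h]; decide)]
  unfold Par.rkc
  split <;> omega

/-- the rank in local coordinates -/
theorem rk_loc (hP : P.Ok) (hi : i < P.K) (hj : j < P.K) :
    P.rk (bi * P.K + i, bj * P.K + j) = if P.bx (P.arr bi bj) i (j + P.K - i - 1) then 0 else
      P.rkc i j (P.cls (P.arr bi bj) (bi * P.K + i) (bj * P.K + j) i j) := by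
  have hK : 0 < P.K := by omega
  have e1 : (bi * P.K + i) / P.K = bi := by
    rw [mul_comm, Nat.mul_add_div hK, Nat.div_eq_of_lt hi, add_zero]
  have e2 : (bj * P.K + j) / P.K = bj := by
    rw [mul_comm, Nat.mul_add_div hK, Nat.div_eq_of_lt hj, add_zero]
  have e3 : (bi * P.K + i) % P.K = i := by
    rw [mul_comm, Nat.mul_add_mod, Nat.mod_eq_of_lt hi]
  have e4 : (bj * P.K + j) % P.K = j := by
    rw [mul_comm, Nat.mul_add_mod, Nat.mod_eq_of_lt hj]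
  have e5 := arr_loc hP bi bj hi hj
  have e6 : P.arr (bi * P.K + i, bj * P.K + j).1 (bi * P.K + i, bj * P.K + j).2 =
      P.bx (P.arr bi bj) i (j + P.K - i - 1) := e5
  unfold Par.rk
  rw [e6]
  simp only [e1, e2, e3, e4]

end Pool.Agent.MP_fadef1_lc
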