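import Pool.Agent.Lib.MP_fadef1_lc.Mg.G014
import Pool.Agent.Lib.MP_fadef1_lc.Mg.G012

/-! Ring condition: junk in row phase 1 away from the events. -/

namespace Pool.Agent.MP_fadef1_lc

variable {P : Par} {i j bi bj : ℕ}

private theorem rcd_lo {a b : ℕ} (h : b < a) : cmp 0 a b :=
  ⟨fun _ => h, fun h => absurd h (by decide)⟩

private theorem rcd_hi {a b : ℕ} (h : a < b) : cmp 2 a b :=
  ⟨fun h => absurd h (by decide), fun _ => h⟩

private theorem rcd_bit (hP : P.Ok) {i j : ℕ} (hi : i < P.K) (hj : j < P.K) :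
    P.arr (bi * P.K + i) (bj * P.K + j) = P.bx (P.arr bi bj) i (j + P.K - i - 1) := by
  rw [arr_loc hP _ _ hi hj]
  rfl

private theorem rcd_gb0 (b : Bool) {A x : ℕ} (hx : x % 3 ≠ 0) : P.bx b (6 * A) x = false ↔
    (P.zrow b A = true ∨ (b = true ∧ A = 0 ∧ P.K ≤ x ∧ x ≤ P.K + 41)) := by
  have h1 : 6 * A % 6 = 0 := by omega
  have h2 : 6 * A / 6 = A := by omega
  unfold Par.bx
  rw [if_pos h1, h2]
  by_cases hz : P.zrow b A = true
  · rw [if_pos hz]
    simp [hz]
  · rw [if_neg hz]
    by_cases hc : (b && decide (6 * A = 0 ∧ P.K ≤ x ∧ x ≤ P.K + 41)) = true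
    · rw [if_pos hc]
      rw [Bool.and_eq_true, decide_eq_true_eq] at hc
      constructor
      · intro _
        exact Or.inr ⟨hc.1, by omega, hc.2.2.1, hc.2.2.2⟩
      · intro _
        rfl
    · rw [if_neg hc, if_neg hx]
      constructor
      · intro h
        exact absurd h (by simp)
      · rintro (h | ⟨hb, hA, h3, h4⟩)
        · exact absurd h hz
        · exfalso
          apply hc
          rw [Bool.and_eq_true, decide_eq_true_eq]
          exact ⟨hb, by omega, h3, h4⟩

/-- junk in row phase 1 away from the event: row `i+1` is `1` nearby; in row `i-1` three ones,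
or three higher cells (zero row or row `0` of a block of type 1). -/
theorem rc_j1 (hP : P.Ok) (hf : AllFin P) (hi : i < P.K) (hj : j < P.K)
    (hr : i % 6 = 1) (hk : (j + P.K - i - 1) % 3 = 0) (hj1 : j + 1 < P.K)
    (hc : P.cl (P.arr bi bj) (i / 6) ((j + P.K - i - 1) / 3) = false)
    (h1 : (P.ev (P.arr bi bj) (i / 6)).t = 1 → (j + P.K - i - 1) / 3 ≤ (P.ev (P.arr bi bj) (i / 6)).x ∨
      (P.ev (P.arr bi bj) (i / 6)).y + 1 < (j + P.K - i - 1) / 3)
    (h2 : (P.ev (P.arr bi bj) (i / 6)).t = 2 ∨ (P.ev (P.arr bi bj) (i / 6)).t = 3 →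
      (j + P.K - i - 1) / 3 < (P.ev (P.arr bi bj) (i / 6)).x ∨ last (P.ev (P.arr bi bj) (i / 6)) + 1 < (j + P.K - i - 1) / 3) :
    RC P (bi * P.K + i) (bj * P.K + j) := by
  have hK := K_pos hP
  have hK6 : P.K = 6 * P.QQ := rfl
  have hQ : P.Q = 2 * P.QQ := rfl
  obtain ⟨A, hA⟩ : ∃ A, i = 6 * A + 1 := ⟨i / 6, by omega⟩
  obtain ⟨c, hx⟩ : ∃ c, j + P.K - i - 1 = 3 * c := ⟨(j + P.K - i - 1) / 3, by omega⟩
  have hAd : i / 6 = A := by omega
  have hcd : (j + P.K - i - 1) / 3 = c := by omega
  rw [hAd, hcd] at hc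
  rw [hAd, hcd] at h1 h2
  have hj2 : 2 ≤ j := by omega
  have hAQ : A < P.QQ := by omega
  have hc1 : 1 ≤ c := by omega
  generalize hb : P.arr bi bj = b at *
  have hV := va_all hP b A hAQ
  have hok := hV.ok
  -- the bits of the neighbours
  have hbit : ∀ i' j' : ℕ, i' < P.K → j' < P.K →
      P.arr (bi * P.K + i') (bj * P.K + j') = P.bx b i' (j' + P.K - i' - 1) := by
    intro i' j' h1 h2
    rw [rcd_bit hP h1 h2, hb]
  have hrk : ∀ i' j' : ℕ, i' < P.K → j' < P.K → P.rk (bi * P.K + i', bj * P.K + j') =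
      if P.bx b i' (j' + P.K - i' - 1) then 0 else
      P.rkc i' j' (P.cls b (bi * P.K + i') (bj * P.K + j') i' j') := by
    intro i' j' h1 h2
    rw [rk_loc hP h1 h2, hb]
  have b1 : ∀ x, P.bx b i x = !decide (x % 3 = 0) := by
    intro x
    simp [Par.bx, hr]
  -- the symbols
  have hsym : ∀ c', (c' = c ∨ c' = c - 1) → sym (P.ev b A) c' = 0 := by
    intro c' hc'
    by_cases t1 : (P.ev b A).t = 1
    · have q := h1 t1
      have hne : c ≠ (P.ev b A).x := by
        intro heq
        have hW := (hok.t1 t1).1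
        have hcut : isCut (P.ev b A) c = false := by simp [isCut, t1]
        unfold Par.cl at hc
        rw [hcut, heq, hW] at hc
        simp at hc
      have hxy := (hok.t1 t1).2.1
      unfold sym
      rw [if_pos t1, if_neg (by omega), if_neg (by omega), if_neg (by omega)]
    · by_cases t2 : (P.ev b A).t = 2 ∨ (P.ev b A).t = 3
      · have q := h2 t2
        unfold sym
        rw [if_neg t1, if_pos t2]
        rw [if_neg (by omega)]
      · unfold sym
        rw [if_neg t1, if_neg t2]
  -- the cell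
  have hcell : P.rk (bi * P.K + i, bj * P.K + j) = 1 + (3 * P.K - (i + 2 * j)) := by
    rw [hrk i j hi hj, b1, hk]
    have : P.cls b (bi * P.K + i) (bj * P.K + j) i j = Cl.j := by
      unfold Par.cls
      rw [if_neg (by omega), if_pos hr, if_neg (by omega), hAd, hcd,
        if_neg (by rw [hc]; simp), if_neg]
      rintro ⟨t, ht⟩
      have q := h2 t
      have hts : (P.ev b A).x ≤ trig (P.ev b A) ∧ trig (P.ev b A) ≤ last (P.ev b A) := by
        rcases t with t | t
        · have hy := (hok.t2 t).1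
          simp only [trig, last, t, if_true]
          omega
        · simp [trig, last, t]
      omega
    rw [this]
    rfl
  have hpos : 0 < P.rk (bi * P.K + i, bj * P.K + j) := by
    rw [hcell]
    omega
  -- ones
  have one : ∀ i' j' : ℕ, P.arr i' j' = true →
      P.rk (i', j') < P.rk (bi * P.K + i, bj * P.K + j) := by
    intro i' j' h
    rw [rk_one h]
    exact hpos
  have n2 : P.arr (bi * P.K + i) (bj * P.K + j + 1) = true := by
    have := hbit i (j + 1) hi hj1
    rw [← Nat.add_assoc] at this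
    rw [this, b1, decide_eq_false (by omega)]
    rfl
  have n6 : P.arr (bi * P.K + i) (bj * P.K + j - 1) = true := by
    have := hbit i (j - 1) hi (by omega)
    have e : bj * P.K + (j - 1) = bj * P.K + j - 1 := by omega
    rw [e] at this
    rw [this, b1, decide_eq_false (by omega)]
    rfl
  -- row 2
  have hi2 : (i + 1) % 6 = 2 := by omega
  have hi2d : (i + 1) / 6 = A := by omega
  have b2 : ∀ x, (x = 3 * c ∨ x = 3 * c - 1 ∨ x = 3 * c - 2) → P.bx b (i + 1) x = true := by
    intro x hx'
    unfold Par.bx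
    rw [if_neg (by omega), if_neg (by omega), if_pos hi2, hi2d]
    rcases hx' with hx' | hx' | hx'
    · have e : x / 3 = c := by omega
      rw [e, hsym c (Or.inl rfl), if_pos rfl, if_pos (by omega), hc]
      rfl
    · have e : x / 3 = c - 1 := by omega
      rw [e, hsym (c - 1) (Or.inr rfl), if_pos rfl, if_neg (by omega)]
    · have e : x / 3 = c - 1 := by omega
      rw [e, hsym (c - 1) (Or.inr rfl), if_pos rfl, if_neg (by omega)]
  have n3 : P.arr (bi * P.K + i + 1) (bj * P.K + j + 1) = true := by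
    have := hbit (i + 1) (j + 1) (by omega) hj1
    rw [← Nat.add_assoc, ← Nat.add_assoc] at this
    rw [this]
    exact b2 _ (by omega)
  have n4 : P.arr (bi * P.K + i + 1) (bj * P.K + j) = true := by
    have := hbit (i + 1) j (by omega) hj
    rw [← Nat.add_assoc] at this
    rw [this]
    exact b2 _ (by omega)
  have n5 : P.arr (bi * P.K + i + 1) (bj * P.K + j - 1) = true := by
    have := hbit (i + 1) (j - 1) (by omega) (by omega)
    have e : bj * P.K + (j - 1) = bj * P.K + j - 1 := by omega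
    rw [e, ← Nat.add_assoc] at this
    rw [this]
    exact b2 _ (by omega)
  -- the row above
  have hi0 : (i - 1) % 6 = 0 := by omega
  have hi0d : (i - 1) / 6 = A := by omega
  have e0 : bi * P.K + (i - 1) = bi * P.K + i - 1 := by omega
  have ej1 : bj * P.K + (j - 1) = bj * P.K + j - 1 := by omega
  have k0 := hrk (i - 1) j (by omega) hj
  have k1 := hrk (i - 1) (j + 1) (by omega) hj1
  have k7 := hrk (i - 1) (j - 1) (by omega) (by omega)
  have hb0 := hbit (i - 1) j (by omega) hj
  have hb1 := hbit (i - 1) (j + 1) (by omega) hj1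
  have hb7 := hbit (i - 1) (j - 1) (by omega) (by omega)
  rw [e0] at k0 k1 k7 hb0 hb1 hb7
  rw [ej1] at k7 hb7
  rw [← Nat.add_assoc] at k1 hb1
  have hx0 : j + P.K - (i - 1) - 1 = 3 * c + 1 := by omega
  have hx1 : j + 1 + P.K - (i - 1) - 1 = 3 * c + 2 := by omega
  have hx7 : j - 1 + P.K - (i - 1) - 1 = 3 * c := by omega
  have hup : ∀ s : Fin 3, (s = 0 ∧ P.bx b (i - 1) (3 * c) = true ∧
      P.bx b (i - 1) (3 * c + 1) = true ∧ P.bx b (i - 1) (3 * c + 2) = true) ∨
      (s = 2 ∧ 7 * P.K + 10 ≤ P.rk (bi * P.K + i - 1, bj * P.K + j) ∧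
        7 * P.K + 10 ≤ P.rk (bi * P.K + i - 1, bj * P.K + j + 1) ∧
        7 * P.K + 10 ≤ P.rk (bi * P.K + i - 1, bj * P.K + j - 1)) →
      RC P (bi * P.K + i) (bj * P.K + j) := by
    rintro s (⟨rfl, q0, q1, q2⟩ | ⟨rfl, q0, q1, q2⟩)
    · refine rc_mk (by omega) (by omega) ![0, 0, 0, 0, 0, 0, 0, 0] (by decide) (by decide)
        ?_ ?_ ?_ ?_ ?_ ?_ ?_ ?_
      · exact rcd_lo (one _ _ (by rw [hb0, hx0]; exact q1))
      · exact rcd_lo (one _ _ (by rw [hb1, hx1]; exact q2))
      · exact rcd_lo (one _ _ n2)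
      · exact rcd_lo (one _ _ n3)
      · exact rcd_lo (one _ _ n4)
      · exact rcd_lo (one _ _ n5)
      · exact rcd_lo (one _ _ n6)
      · exact rcd_lo (one _ _ (by rw [hb7, hx7]; exact q0))
    · refine rc_mk (by omega) (by omega) ![2, 2, 0, 0, 0, 0, 0, 2] (by decide) (by decide)
        ?_ ?_ ?_ ?_ ?_ ?_ ?_ ?_
      · exact rcd_hi (by rw [hcell]; omega)
      · exact rcd_hi (by rw [hcell]; omega)
      · exact rcd_lo (one _ _ n2)
      · exact rcd_lo (one _ _ n3)
      · exact rcd_lo (one _ _ n4)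
      · exact rcd_lo (one _ _ n5)
      · exact rcd_lo (one _ _ n6)
      · exact rcd_hi (by rw [hcell]; omega)
  by_cases hzr : P.zrow b A = true
  · -- a row of zeros
    have hbz : ∀ x, P.bx b (i - 1) x = false := by
      intro x
      unfold Par.bx
      rw [if_pos hi0, hi0d, if_pos hzr]
    have hcls : ∀ I' J' j', P.cls b I' J' (i - 1) j' = Cl.s ⟨I', J', Lane.L 42 0⟩ 0 := by
      intro I' J' j'
      unfold Par.cls
      rw [if_pos hi0, hi0d, if_pos hzr]
    rw [hbz, hcls] at k0 k1 k7
    refine hup 2 (Or.inr ⟨rfl, ?_, ?_, ?_⟩)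
    · rw [k0]
      show 7 * P.K + 10 ≤ 7 * P.K + 10 + 2 * _ + 0
      omega
    · rw [k1]
      show 7 * P.K + 10 ≤ 7 * P.K + 10 + 2 * _ + 0
      omega
    · rw [k7]
      show 7 * P.K + 10 ≤ 7 * P.K + 10 + 2 * _ + 0
      omega
  · by_cases hZ : b = true ∧ A = 0 ∧ P.K ≤ 3 * c ∧ 3 * c ≤ P.K + 41
    · obtain ⟨hbt, hA0, hZ1, hZ2⟩ := hZ
      subst hA0
      have hne : c ≠ P.Q + 13 := by
        intro heq
        have hW : P.W b 0 c = true := by
          have : P.W b 0 c = P.W0 b c := rfl
          rw [this, hbt, heq]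
          simp [Par.W0]
        have hev : P.ev b 0 = Ev.non := by
          unfold Par.ev
          rw [if_pos (by omega)]
        unfold Par.cl at hc
        rw [hW, hev] at hc
        simp [isCut, Ev.non] at hc
      have hc36 : 3 * c ≤ P.K + 36 := by omega
      have hbz : ∀ x, P.K ≤ x → x ≤ P.K + 41 → P.bx b (i - 1) x = false := by
        intro x h1 h2
        have e : i - 1 = 0 := by omega
        rw [e, hbt]
        unfold Par.bx
        rw [if_pos (by rfl)]
        split
        · rfl
        · rw [if_pos]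
          rw [Bool.and_eq_true, decide_eq_true_eq]
          exact ⟨rfl, rfl, h1, h2⟩
      have hz' : ¬ P.zrow b ((i - 1) / 6) = true := by
        rw [hi0d]
        exact hzr
      have hcls : ∀ I' J' j', P.K ≤ j' + P.K - (i - 1) - 1 → j' + P.K - (i - 1) - 1 ≤ P.K + 39 →
          7 * P.K + 10 ≤ P.rkc (i - 1) j' (P.cls b I' J' (i - 1) j') := by
        intro I' J' j' q1 q2
        have : P.cls b I' J' (i - 1) j' =
            Cl.s ⟨I', J', Lane.L (P.K + 41 - (j' + P.K - (i - 1) - 1)) 0⟩ 0 := by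
          unfold Par.cls
          rw [if_pos hi0, if_neg hz', if_pos ⟨hbt, by omega, by omega, by omega⟩,
            if_pos (by omega)]
        rw [this]
        show 7 * P.K + 10 ≤ 7 * P.K + 10 + 2 * _ + 0
        omega
      refine hup 2 (Or.inr ⟨rfl, ?_, ?_, ?_⟩)
      · rw [k0, hbz _ (by omega) (by omega)]
        exact hcls _ _ _ (by omega) (by omega)
      · rw [k1, hbz _ (by omega) (by omega)]
        exact hcls _ _ _ (by omega) (by omega)
      · rw [k7, hbz _ (by omega) (by omega)]
        exact hcls _ _ _ (by omega) (by omega)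
    · -- the ordinary case
      have hbo : ∀ x, (x = 3 * c + 1 ∨ x = 3 * c + 2) → P.bx b (i - 1) x = true := by
        intro x hx'
        have e : i - 1 = 6 * A := by omega
        rw [e]
        by_contra hne
        have hne' : P.bx b (6 * A) x = false := by simpa using hne
        rw [rcd_gb0 _ (by omega)] at hne'
        rcases hne' with h | ⟨h1, h2, h3, h4⟩
        · exact hzr h
        · exact hZ ⟨h1, h2, by omega, by omega⟩
      have hbw : P.bx b (i - 1) (3 * c) = true := by
        unfold Par.bx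
        have e3 : 3 * c / 3 = c := by omega
        rw [if_pos hi0, hi0d, if_neg hzr, if_neg, if_pos (by omega), e3, hc]
        · rfl
        · intro h
          rw [Bool.and_eq_true, decide_eq_true_eq] at h
          exact hZ ⟨h.1, by omega, h.2.2.1, h.2.2.2⟩
      exact hup 0 (Or.inl ⟨rfl, hbw, hbo _ (Or.inl rfl), hbo _ (Or.inr rfl)⟩)

end Pool.Agent.MP_fadef1_lc
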