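import Pool.Agent.Lib.MP_fadef1_lc.Mg.G014
import Pool.Agent.Lib.MP_fadef1_lc.Mg.G012

/-! Ring condition: junk in row phase 1 above a gate. -/

namespace Pool.Agent.MP_fadef1_lc

variable {P : Par} {i j bi bj : ℕ}

private theorem g_lo {a b : ℕ} (h : b < a) : cmp 0 a b :=
  ⟨fun _ => h, fun h2 => absurd h2 (by decide)⟩

private theorem g_hi {a b : ℕ} (h : a < b) : cmp 2 a b :=
  ⟨fun h2 => absurd h2 (by decide), fun _ => h⟩

private theorem g_one (hP : P.Ok) {bi bj i j : ℕ} (hi : i < P.K) (hj : j < P.K)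
    (h : P.bx (P.arr bi bj) i (j + P.K - i - 1) = true) :
    P.rk (bi * P.K + i, bj * P.K + j) = 0 := by
  rw [rk_loc hP hi hj, if_pos h]

private theorem g_zero (hP : P.Ok) {bi bj i j : ℕ} (hi : i < P.K) (hj : j < P.K)
    (h : P.bx (P.arr bi bj) i (j + P.K - i - 1) = false) :
    P.rk (bi * P.K + i, bj * P.K + j) =
      P.rkc i j (P.cls (P.arr bi bj) (bi * P.K + i) (bj * P.K + j) i j) := by
  rw [rk_loc hP hi hj, if_neg (by rw [h]; decide)]

private theorem g_bx0 {b : Bool} {i y : ℕ} (h : i % 6 = 0) (hz : P.zrow b (i / 6) = false)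
    (h0 : i ≠ 0) (hc : y % 3 ≠ 0 ∨ P.cl b (i / 6) (y / 3) = false) : P.bx b i y = true := by
  unfold Par.bx
  rw [if_pos h, if_neg (by simp [hz]), if_neg (by simp [h0])]
  by_cases h3 : y % 3 = 0
  · rw [if_pos h3]
    rcases hc with hc | hc
    · exact absurd h3 hc
    · rw [hc]; rfl
  · rw [if_neg h3]

private theorem g_bx1 {b : Bool} {i y : ℕ} (h : i % 6 = 1) :
    P.bx b i y = !decide (y % 3 = 0) := by
  unfold Par.bx
  rw [if_neg (by omega), if_pos h]

private theorem g_bx2 {b : Bool} {i y s k : ℕ} (h : i % 6 = 2)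
    (hs : sym (P.ev b (i / 6)) (y / 3) = s) (hk : y % 3 = k) :
    P.bx b i y = (if s = 0 then
      (if k = 0 then !P.cl b (i / 6) (y / 3) else true)
    else if s = 1 then
      (if k = 0 then !P.cl b (i / 6) (y / 3) else decide (k = 1))
    else if s = 2 then false
    else decide (k = 2)) := by
  subst hs hk
  unfold Par.bx
  rw [if_neg (by omega), if_neg (by omega), if_pos h]

/-- junk in row phase 1 above a gate (`t = 2, 3`), not the pillar. The cells `(i+1, j-1)`,
`(i+1, j)`, `(i+1, j+1)` are zeros if they are between channels `e.x` and `last e` (the trigger L cell of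
channel `c - 1` does not occur, since `c = trig e + 1` is excluded). Zeros of the chain and left junk are
higher; a right junk cell is higher at `(i+1, j-1)` and lower at `(i+1, j)`, `(i+1, j+1)`. -/
theorem rc_j1gate (hP : P.Ok) (hf : AllFin P) (hi : i < P.K) (hj : j < P.K)
    (hr : i % 6 = 1) (hk : (j + P.K - i - 1) % 3 = 0) (hj1 : j + 1 < P.K)
    (hc : P.cl (P.arr bi bj) (i / 6) ((j + P.K - i - 1) / 3) = false)
    (ht : (P.ev (P.arr bi bj) (i / 6)).t = 2 ∨ (P.ev (P.arr bi bj) (i / 6)).t = 3)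
    (h1 : (P.ev (P.arr bi bj) (i / 6)).x ≤ (j + P.K - i - 1) / 3) (h2 : (j + P.K - i - 1) / 3 ≤ last (P.ev (P.arr bi bj) (i / 6)) + 1)
    (hp : (j + P.K - i - 1) / 3 ≠ trig (P.ev (P.arr bi bj) (i / 6)) + 1) :
    RC P (bi * P.K + i) (bj * P.K + j) := by
  have hK : P.K = 6 * P.QQ := rfl
  have hQ : P.Q = 2 * P.QQ := rfl
  have hQQ : i / 6 < P.QQ := by omega
  have va := va_all hP (P.arr bi bj) (i / 6) hQQ
  obtain ⟨q1, q2, q3, q4, q5, q6⟩ := va.quiet (by omega)
  -- the numbers of the event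
  obtain ⟨e1, e2, e3, e4, e5, e6⟩ : lst (P.ev (P.arr bi bj) (i / 6)) = last (P.ev (P.arr bi bj) (i / 6)) ∧
      (P.ev (P.arr bi bj) (i / 6)).x + 14 ≤ last (P.ev (P.arr bi bj) (i / 6)) ∧
      (P.ev (P.arr bi bj) (i / 6)).x ≤ trig (P.ev (P.arr bi bj) (i / 6)) ∧
      trig (P.ev (P.arr bi bj) (i / 6)) ≤ (P.ev (P.arr bi bj) (i / 6)).x + 13 ∧
      s0 (P.ev (P.arr bi bj) (i / 6)) ≤ (P.ev (P.arr bi bj) (i / 6)).x + 2 ∧
      (P.ev (P.arr bi bj) (i / 6)).x + 14 ≤ s1 (P.ev (P.arr bi bj) (i / 6)) := by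
    rcases ht with ht | ht
    · obtain ⟨y4, -⟩ := va.ok.t2 ht
      unfold lst last trig s0 s1
      rw [if_neg (by omega), if_pos ht, if_pos ht, if_pos ht]
      refine ⟨rfl, by omega, by omega, by omega, ?_, ?_⟩ <;> split <;> omega
    · unfold lst last trig s0 s1
      rw [if_neg (by omega), if_neg (by omega), if_pos ht, if_neg (by omega), if_pos ht,
        if_neg (by omega)]
      refine ⟨rfl, by omega, by omega, by omega, ?_, ?_⟩ <;> split <;> omega
  obtain ⟨e7, e8⟩ : s1 (P.ev (P.arr bi bj) (i / 6)) ≤ last (P.ev (P.arr bi bj) (i / 6)) ∧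
      True := by
    refine ⟨?_, trivial⟩
    rcases ht with ht | ht
    · unfold last s1; rw [if_pos ht]; split <;> omega
    · unfold last s1; rw [if_neg (by omega), if_pos ht]; split <;> omega
  rw [e1] at q6
  have hz : P.zrow (P.arr bi bj) (i / 6) = false := by
    by_contra hcc
    have := (va.zr (by simpa using hcc)).2
    omega
  have hcell : P.rk (bi * P.K + i, bj * P.K + j) = 1 + (3 * P.K - (i + 2 * j)) := by
    rw [g_zero hP hi hj (by rw [g_bx1 hr, hk]; rfl)]
    unfold Par.cls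
    rw [if_neg (by omega), if_pos hr, if_neg (by omega), if_neg (by rw [hc]; decide),
      if_neg (fun h => hp h.2)]
    rfl
  have hpos : 0 < P.rk (bi * P.K + i, bj * P.K + j) := by omega
  have n0 : P.rk (bi * P.K + i - 1, bj * P.K + j) = 0 := by
    rw [show bi * P.K + i - 1 = bi * P.K + (i - 1) by omega]
    refine g_one hP (by omega) hj (g_bx0 (by omega) ?_ (by omega) (Or.inl (by omega)))
    rw [show (i - 1) / 6 = i / 6 by omega]; exact hz
  have n1 : P.rk (bi * P.K + i - 1, bj * P.K + j + 1) = 0 := by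
    rw [show bi * P.K + i - 1 = bi * P.K + (i - 1) by omega, Nat.add_assoc (bj * P.K)]
    refine g_one hP (by omega) (by omega) (g_bx0 (by omega) ?_ (by omega) (Or.inl (by omega)))
    rw [show (i - 1) / 6 = i / 6 by omega]; exact hz
  have n2 : P.rk (bi * P.K + i, bj * P.K + j + 1) = 0 := by
    rw [Nat.add_assoc (bj * P.K)]
    refine g_one hP hi (by omega) ?_
    rw [g_bx1 hr]
    simp only [Bool.not_eq_true', decide_eq_false_iff_not]
    omega
  have n6 : P.rk (bi * P.K + i, bj * P.K + j - 1) = 0 := by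
    rw [show bj * P.K + j - 1 = bj * P.K + (j - 1) by omega]
    refine g_one hP hi (by omega) ?_
    rw [g_bx1 hr]
    simp only [Bool.not_eq_true', decide_eq_false_iff_not]
    omega
  have n7 : P.rk (bi * P.K + i - 1, bj * P.K + j - 1) = 0 := by
    rw [show bi * P.K + i - 1 = bi * P.K + (i - 1) by omega,
      show bj * P.K + j - 1 = bj * P.K + (j - 1) by omega]
    refine g_one hP (by omega) (by omega) (g_bx0 (by omega) ?_ (by omega) (Or.inr ?_))
    · rw [show (i - 1) / 6 = i / 6 by omega]; exact hz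
    · rw [show (i - 1) / 6 = i / 6 by omega,
        show j - 1 + P.K - (i - 1) - 1 = j + P.K - i - 1 by omega]; exact hc
  -- row below: zeros of the gate
  have up : ∀ j' : ℕ, j' < P.K → (i + 1) < P.K →
      P.bx (P.arr bi bj) (i + 1) (j' + P.K - (i + 1) - 1) = false →
      3 * (P.ev (P.arr bi bj) (i / 6)).x ≤ j' + P.K - (i + 1) - 1 →
      j' + P.K - (i + 1) - 1 ≤ 3 * s1 (P.ev (P.arr bi bj) (i / 6)) + 1 →
      P.rk (bi * P.K + i, bj * P.K + j) < P.rk (bi * P.K + (i + 1), bj * P.K + j') := by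
    intro j' hj' hi' hb h3 h4
    rw [g_zero hP hi' hj' hb, hcell]
    unfold Par.cls
    rw [if_neg (by omega), if_neg (by omega), if_pos (by omega),
      show (i + 1) / 6 = i / 6 by omega, if_neg (by omega),
      if_pos ⟨ht, h3, by omega⟩]
    split_ifs
    · show _ < 3 * P.K + 2 + (i + 1 + 2 * j')
      omega
    all_goals first
      | (show _ < 7 * P.K + 10 + 2 * _ + 1; omega)
      | (show _ < 7 * P.K + 10 + 2 * _ + 0; omega)
  have dn : ∀ j' : ℕ, j' < P.K → (i + 1) < P.K →
      P.bx (P.arr bi bj) (i + 1) (j' + P.K - (i + 1) - 1) = false →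
      3 * s1 (P.ev (P.arr bi bj) (i / 6)) + 2 ≤ j' + P.K - (i + 1) - 1 →
      j' + P.K - (i + 1) - 1 ≤ 3 * last (P.ev (P.arr bi bj) (i / 6)) + 2 →
      P.rk (bi * P.K + (i + 1), bj * P.K + j') = 1 + (3 * P.K - (i + 1 + 2 * j')) := by
    intro j' hj' hi' hb h3 h4
    rw [g_zero hP hi' hj' hb]
    unfold Par.cls
    rw [if_neg (by omega), if_neg (by omega), if_pos (by omega),
      show (i + 1) / 6 = i / 6 by omega, if_neg (by omega),
      if_pos ⟨ht, by omega, h4⟩, if_neg (by omega), if_neg (by omega), if_neg (by omega),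
      if_neg (by omega), if_neg (by omega)]
    rfl
  have hsym : ∀ c, sym (P.ev (P.arr bi bj) (i / 6)) c =
      if (P.ev (P.arr bi bj) (i / 6)).x ≤ c ∧ c ≤ last (P.ev (P.arr bi bj) (i / 6)) then
        (if c = trig (P.ev (P.arr bi bj) (i / 6)) then 3 else 2) else 0 := by
    intro c; unfold sym; rw [if_neg (by omega), if_pos ht]
  have h3' : P.rk (bi * P.K + i + 1, bj * P.K + j + 1) =
      P.rk (bi * P.K + (i + 1), bj * P.K + (j + 1)) := rfl
  have h4' : P.rk (bi * P.K + i + 1, bj * P.K + j) =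
      P.rk (bi * P.K + (i + 1), bj * P.K + j) := rfl
  have h5' : P.rk (bi * P.K + i + 1, bj * P.K + j - 1) =
      P.rk (bi * P.K + (i + 1), bj * P.K + (j - 1)) := by
    rw [show bj * P.K + j - 1 = bj * P.K + (j - 1) by omega]; rfl
  have c3 : j + 1 + P.K - (i + 1) - 1 = j + P.K - i - 1 := by omega
  have c4 : j + P.K - (i + 1) - 1 = j + P.K - i - 1 - 1 := by omega
  have c5 : j - 1 + P.K - (i + 1) - 1 = j + P.K - i - 1 - 2 := by omega
  have f6 : (i + 1) / 6 = i / 6 := by omega
  -- zeros below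
  have b3 : (j + P.K - i - 1) / 3 ≤ last (P.ev (P.arr bi bj) (i / 6)) →
      P.bx (P.arr bi bj) (i + 1) (j + P.K - i - 1) = false := by
    intro h
    by_cases h' : (j + P.K - i - 1) / 3 = trig (P.ev (P.arr bi bj) (i / 6))
    · rw [g_bx2 (s := 3) (k := 0) (by omega) (by
          rw [f6, hsym, if_pos ⟨h1, h⟩, if_pos h']) hk]; rfl
    · rw [g_bx2 (s := 2) (k := 0) (by omega) (by
          rw [f6, hsym, if_pos ⟨h1, h⟩, if_neg h']) hk]; rfl
  have b4 : (P.ev (P.arr bi bj) (i / 6)).x < (j + P.K - i - 1) / 3 →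
      P.bx (P.arr bi bj) (i + 1) (j + P.K - i - 1 - 1) = false := by
    intro h
    rw [g_bx2 (s := 2) (k := 2) (by omega) (by
      rw [f6, hsym, if_pos (by omega), if_neg (by omega)]) (by omega)]; rfl
  have b5 : (P.ev (P.arr bi bj) (i / 6)).x < (j + P.K - i - 1) / 3 →
      P.bx (P.arr bi bj) (i + 1) (j + P.K - i - 1 - 2) = false := by
    intro h
    rw [g_bx2 (s := 2) (k := 1) (by omega) (by
      rw [f6, hsym, if_pos (by omega), if_neg (by omega)]) (by omega)]; rfl
  rcases Nat.lt_or_ge (P.ev (P.arr bi bj) (i / 6)).x ((j + P.K - i - 1) / 3) with hx | hx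
  · rcases Nat.lt_or_ge (s1 (P.ev (P.arr bi bj) (i / 6))) ((j + P.K - i - 1) / 3) with hs | hs
    · -- right junk
      have n5 : P.rk (bi * P.K + i, bj * P.K + j) < P.rk (bi * P.K + i + 1, bj * P.K + j - 1) := by
        rw [h5']
        rcases Nat.lt_or_ge (s1 (P.ev (P.arr bi bj) (i / 6)) + 1) ((j + P.K - i - 1) / 3) with hs' | hs'
        · rw [dn (j - 1) (by omega) (by omega) (by rw [c5]; exact b5 hx) (by omega) (by omega), hcell]
          omega
        · exact up (j - 1) (by omega) (by omega) (by rw [c5]; exact b5 hx) (by omega) (by omega)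
      have n4 : P.rk (bi * P.K + i + 1, bj * P.K + j) < P.rk (bi * P.K + i, bj * P.K + j) := by
        rw [h4', dn j (by omega) (by omega) (by rw [c4]; exact b4 hx) (by omega) (by omega), hcell]
        omega
      have n3 : P.rk (bi * P.K + i + 1, bj * P.K + j + 1) < P.rk (bi * P.K + i, bj * P.K + j) := by
        rcases Nat.lt_or_ge (last (P.ev (P.arr bi bj) (i / 6))) ((j + P.K - i - 1) / 3) with hl | hl
        · rw [h3', g_one hP (by omega) (by omega) ?_]
          · exact hpos
          · rw [c3, g_bx2 (s := 0) (k := 0) (by omega) (by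
              rw [f6, hsym, if_neg (by omega)]) hk, f6, hc]; rfl
        · rw [h3', dn (j + 1) (by omega) (by omega) (by rw [c3]; exact b3 hl) (by omega) (by omega),
            hcell]
          omega
      exact rc_mk (by omega) (by omega) ![0, 0, 0, 0, 0, 2, 0, 0] (by decide) (by decide)
        (g_lo (by omega)) (g_lo (by omega)) (g_lo (by omega)) (g_lo n3) (g_lo n4)
        (g_hi n5) (g_lo (by omega)) (g_lo (by omega))
    · have n5 : P.rk (bi * P.K + i, bj * P.K + j) < P.rk (bi * P.K + i + 1, bj * P.K + j - 1) := by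
        rw [h5']
        exact up (j - 1) (by omega) (by omega) (by rw [c5]; exact b5 hx) (by omega) (by omega)
      have n4 : P.rk (bi * P.K + i, bj * P.K + j) < P.rk (bi * P.K + i + 1, bj * P.K + j) := by
        rw [h4']
        exact up j (by omega) (by omega) (by rw [c4]; exact b4 hx) (by omega) (by omega)
      have n3 : P.rk (bi * P.K + i, bj * P.K + j) < P.rk (bi * P.K + i + 1, bj * P.K + j + 1) := by
        rw [h3']
        exact up (j + 1) (by omega) (by omega) (by rw [c3]; exact b3 (by omega)) (by omega) (by omega)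
      exact rc_mk (by omega) (by omega) ![0, 0, 0, 2, 2, 2, 0, 0] (by decide) (by decide)
        (g_lo (by omega)) (g_lo (by omega)) (g_lo (by omega)) (g_hi n3) (g_hi n4)
        (g_hi n5) (g_lo (by omega)) (g_lo (by omega))
  · -- first channel
    have n3 : P.rk (bi * P.K + i, bj * P.K + j) < P.rk (bi * P.K + i + 1, bj * P.K + j + 1) := by
      rw [h3']
      exact up (j + 1) (by omega) (by omega) (by rw [c3]; exact b3 (by omega)) (by omega) (by omega)
    have n4 : P.rk (bi * P.K + i + 1, bj * P.K + j) = 0 := by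
      rw [h4']
      refine g_one hP (by omega) (by omega) ?_
      rw [c4, g_bx2 (s := 0) (k := 2) (by omega) (by rw [f6, hsym, if_neg (by omega)]) (by omega)]
      rfl
    have n5 : P.rk (bi * P.K + i + 1, bj * P.K + j - 1) = 0 := by
      rw [h5']
      refine g_one hP (by omega) (by omega) ?_
      rw [c5, g_bx2 (s := 0) (k := 1) (by omega) (by rw [f6, hsym, if_neg (by omega)]) (by omega)]
      rfl
    exact rc_mk (by omega) (by omega) ![0, 0, 0, 2, 0, 0, 0, 0] (by decide) (by decide)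
      (g_lo (by omega)) (g_lo (by omega)) (g_lo (by omega)) (g_hi n3) (g_lo (by omega))
      (g_lo (by omega)) (g_lo (by omega)) (g_lo (by omega))

end Pool.Agent.MP_fadef1_lc
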