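import Pool.Agent.Lib.MP_fadef1_lc.Mg.G014
import Pool.Agent.Lib.MP_fadef1_lc.Mg.G012

/-! Ring condition: walls in row phase 2. -/

namespace Pool.Agent.MP_fadef1_lc

variable {P : Par} {i j bi bj : ℕ}

private theorem rc2a_bx2 (b : Bool) {i x : ℕ} (hr : i % 6 = 2) : P.bx b i x =
    (if sym (P.ev b (i / 6)) (x / 3) = 0 then
      (if x % 3 = 0 then !P.cl b (i / 6) (x / 3) else true)
    else if sym (P.ev b (i / 6)) (x / 3) = 1 then
      (if x % 3 = 0 then !P.cl b (i / 6) (x / 3) else decide (x % 3 = 1))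
    else if sym (P.ev b (i / 6)) (x / 3) = 2 then false
    else decide (x % 3 = 2)) := by
  unfold Par.bx
  rw [if_neg (by omega), if_neg (by omega), if_pos hr]

private theorem rc2a_bx3 (b : Bool) {i x : ℕ} (hr : i % 6 = 3) :
    P.bx b i x = (if x % 3 = 0 then !P.cl3 b (i / 6) (x / 3) else true) := by
  unfold Par.bx
  rw [if_neg (by omega), if_neg (by omega), if_neg (by omega), if_pos hr]

private theorem rc2a_lt {a b : ℕ} (h : b < a) : cmp 0 a b :=
  ⟨fun _ => h, fun h => absurd h (by decide)⟩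

private theorem rc2a_gt {a b : ℕ} (h : a < b) : cmp 2 a b :=
  ⟨fun h => absurd h (by decide), fun _ => h⟩

private theorem rc2a_one (hP : P.Ok) {i j x : ℕ} (hi : i < P.K) (hj : j < P.K)
    (hx : j + P.K - i - 1 = x) (h : P.bx (P.arr bi bj) i x = true) :
    P.arr (bi * P.K + i) (bj * P.K + j) = true := by
  rw [arr_loc hP bi bj hi hj]
  unfold Par.bit
  rw [hx, h]

private theorem rc2a_zero (hP : P.Ok) {i j x : ℕ} (hi : i < P.K) (hj : j < P.K)
    (hx : j + P.K - i - 1 = x) (h : P.bx (P.arr bi bj) i x = false) :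
    P.arr (bi * P.K + i) (bj * P.K + j) = false := by
  rw [arr_loc hP bi bj hi hj]
  unfold Par.bit
  rw [hx, h]

private theorem rc2a_rk (hP : P.Ok) {i j x : ℕ} (hi : i < P.K) (hj : j < P.K)
    (hx : j + P.K - i - 1 = x) (h : P.bx (P.arr bi bj) i x = false) :
    P.rk (bi * P.K + i, bj * P.K + j) =
      P.rkc i j (P.cls (P.arr bi bj) (bi * P.K + i) (bj * P.K + j) i j) := by
  rw [rk_loc hP hi hj, hx, h]
  rfl

private theorem rc2a_j (P : Par) (i j : ℕ) : P.rkc i j Cl.j ≤ 3 * P.K + 1 := by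
  change 1 + (3 * P.K - (i + 2 * j)) ≤ 3 * P.K + 1
  omega

private theorem rc2a_cls2_out (b : Bool) (I J : ℕ) {i j A x : ℕ} (hr : i % 6 = 2) (hA : i / 6 = A)
    (hx : j + P.K - i - 1 = x)
    (h1 : (P.ev b A).t = 1 → ¬ (3 * (P.ev b A).x + 2 ≤ x ∧ x ≤ 3 * (P.ev b A).y + 1))
    (h2 : (P.ev b A).t = 2 ∨ (P.ev b A).t = 3 →
      ¬ (3 * (P.ev b A).x ≤ x ∧ x ≤ 3 * last (P.ev b A) + 2)) :
    P.cls b I J i j = Cl.s ⟨I, J + 1, Lane.T 0⟩ 1 := by
  unfold Par.cls
  rw [hA, hx, if_neg (by omega), if_neg (by omega), if_pos hr]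
  by_cases ht : (P.ev b A).t = 1
  · rw [if_pos ht, if_neg (h1 ht)]
  · rw [if_neg ht, if_neg (fun h => h2 h.1 h.2)]

private theorem rc2a_one2 (hP : P.Ok) {i j x : ℕ} (hi : i < P.K) (hj : j < P.K)
    (hx : j + P.K - i - 1 = x) (h : P.bx (P.arr bi bj) i x = true) :
    P.rk (bi * P.K + i, bj * P.K + j) = 0 :=
  rk_one (rc2a_one hP hi hj hx h)

private theorem rc2a_bx0 (b : Bool) {i x : ℕ} (hr : i % 6 = 0) : P.bx b i x =
    (if P.zrow b (i / 6) then false
    else if b && decide (i = 0 ∧ P.K ≤ x ∧ x ≤ P.K + 41) then false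
    else if x % 3 = 0 then !P.cl b (i / 6) (x / 3) else true) := by
  unfold Par.bx
  rw [if_pos hr]

private theorem rc2a_bx1 (b : Bool) {i x : ℕ} (hr : i % 6 = 1) :
    P.bx b i x = !decide (x % 3 = 0) := by
  unfold Par.bx
  rw [if_neg (by omega), if_pos hr]

private theorem rc2a_sym {W : ℕ → Bool} {e : Ev} {c : ℕ} (hok : EvOk W e) (hW : W c = true)
    (hs : sym e c ≤ 1) (hc : 1 ≤ c) :
    (e.t = 1 → c = e.x ∨ c + 2 ≤ e.x ∨ e.y + 2 ≤ c) ∧
    ((e.t = 2 ∨ e.t = 3) → c + 2 ≤ e.x ∨ last e + 2 ≤ c) ∧ sym e (c - 1) = 0 := by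
  by_cases h1 : e.t = 1
  · obtain ⟨-, h2, h3⟩ := hok.t1 h1
    have h4 : c = e.x ∨ c + 2 ≤ e.x ∨ e.y + 2 ≤ c := by
      by_cases h5 : c = e.x
      · exact Or.inl h5
      · exact Or.inr (h3 c hW h5)
    refine ⟨fun _ => h4, fun h => by omega, ?_⟩
    unfold sym
    rw [if_pos h1, if_neg (by omega), if_neg (by omega), if_neg (by omega)]
  · by_cases h2 : e.t = 2
    · obtain ⟨-, -, -, h3⟩ := hok.t2 h2
      have hl : last e = e.x + 16 := by
        unfold last
        rw [if_pos h2]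
      have hn : ¬ (e.x ≤ c ∧ c ≤ last e) := by
        intro h
        unfold sym at hs
        rw [if_neg h1, if_pos (Or.inl h2), if_pos h] at hs
        split_ifs at hs <;> omega
      have h4 := h3 c hW (by omega) (by omega)
      refine ⟨fun h => by omega, fun _ => by omega, ?_⟩
      unfold sym
      rw [if_neg h1, if_pos (Or.inl h2), if_neg (by omega)]
    · by_cases h3 : e.t = 3
      · obtain ⟨-, h4⟩ := hok.t3 h3
        have hl : last e = e.x + 14 := by
          unfold last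
          rw [if_neg h2, if_pos h3]
        have hn : ¬ (e.x ≤ c ∧ c ≤ last e) := by
          intro h
          unfold sym at hs
          rw [if_neg h1, if_pos (Or.inr h3), if_pos h] at hs
          split_ifs at hs <;> omega
        have h5 := h4 c hW (by omega)
        refine ⟨fun h => by omega, fun _ => by omega, ?_⟩
        unfold sym
        rw [if_neg h1, if_pos (Or.inr h3), if_neg (by omega)]
      · refine ⟨fun h => absurd h h1, fun h => by omega, ?_⟩
        unfold sym
        rw [if_neg h1, if_neg (by omega)]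

/-- closed wall in row phase 2 (no event at the channel, or start of a run): `(i-1, j-1)` is
higher or, at the left border, lower or higher (border cell of the left block) or missing; everything
else is lower; at the start of a run `(i+1, j+1)` is the stub. Use `rc_mk_left` if `j = 0`, `bj = 0`. -/
theorem rc_w2 (hP : P.Ok) (hf : AllFin P) (hi : i < P.K) (hj : j < P.K)
    (hr : i % 6 = 2) (hk : (j + P.K - i - 1) % 3 = 0)
    (h : P.bx (P.arr bi bj) i (j + P.K - i - 1) = false)
    (hs : sym (P.ev (P.arr bi bj) (i / 6)) ((j + P.K - i - 1) / 3) ≤ 1) :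
    RC P (bi * P.K + i) (bj * P.K + j) := by
  have hK : P.K = 6 * P.QQ := rfl
  have hQ : P.Q = 2 * P.QQ := rfl
  obtain ⟨i, rfl⟩ : ∃ i0, i = i0 + 1 := ⟨i - 1, by omega⟩
  obtain ⟨c, hc⟩ : ∃ c, j + P.K - (i + 1) - 1 = 3 * c :=
    ⟨(j + P.K - (i + 1) - 1) / 3, by omega⟩
  obtain ⟨A, hA⟩ : ∃ A, i / 6 = A := ⟨_, rfl⟩
  have hr1 : i % 6 = 1 := by omega
  have hr3 : (i + 1 + 1) % 6 = 3 := by omega
  have hA2 : (i + 1) / 6 = A := by omega
  have hA3 : (i + 1 + 1) / 6 = A := by omega
  have hj1 : j + 1 < P.K := by omega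
  have hi0 : i < P.K := by omega
  have hi2 : i + 1 + 1 < P.K := by omega
  have hAQ : A < P.QQ := by omega
  have hva := va_all hP (P.arr bi bj) A hAQ
  have hc0 : 3 * c / 3 = c := by omega
  have hc1 : (3 * c + 1) / 3 = c := by omega
  have hc2 : (3 * c + 2) / 3 = c := by omega
  have hm0 : 3 * c % 3 = 0 := by omega
  have hc1' : 1 ≤ c := by omega
  rw [hc] at h hs
  rw [hA2, hc0] at hs
  have h' := h
  have hcl : P.cl (P.arr bi bj) A c = true := by
    rw [rc2a_bx2 _ hr, if_pos hm0, hc0, hA2] at h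
    have h01 : sym (P.ev (P.arr bi bj) A) c = 0 ∨ sym (P.ev (P.arr bi bj) A) c = 1 := by omega
    rcases h01 with h0 | h1
    · rw [if_pos h0] at h
      revert h
      cases P.cl (P.arr bi bj) A c <;> simp
    · rw [if_neg (by omega), if_pos h1] at h
      revert h
      cases P.cl (P.arr bi bj) A c <;> simp
  have hW : P.W (P.arr bi bj) A c = true := by
    unfold Par.cl at hcl
    rw [Bool.and_eq_true] at hcl
    exact hcl.1
  obtain ⟨hs1, hs2, hs3⟩ := rc2a_sym hva.ok hW hs hc1'
  -- the cells which do not depend on the left neighbours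
  have a0 : P.arr (bi * P.K + i) (bj * P.K + j) = true :=
    rc2a_one hP (x := 3 * c + 1) hi0 hj (by omega) (by
      rw [rc2a_bx1 _ hr1, decide_eq_false (by omega)]
      rfl)
  have a1 : P.arr (bi * P.K + i) (bj * P.K + (j + 1)) = true :=
    rc2a_one hP (x := 3 * c + 2) hi0 hj1 (by omega) (by
      rw [rc2a_bx1 _ hr1, decide_eq_false (by omega)]
      rfl)
  have a2 : P.arr (bi * P.K + (i + 1)) (bj * P.K + (j + 1)) = true := by
    refine rc2a_one hP (x := 3 * c + 1) hi hj1 (by omega) ?_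
    rw [rc2a_bx2 _ hr, hA2, hc1]
    have h01 : sym (P.ev (P.arr bi bj) A) c = 0 ∨ sym (P.ev (P.arr bi bj) A) c = 1 := by omega
    rcases h01 with h0 | h1
    · rw [if_pos h0, if_neg (by omega)]
    · rw [if_neg (by omega), if_pos h1, if_neg (by omega)]
      exact decide_eq_true (by omega)
  have a4 : P.arr (bi * P.K + (i + 1 + 1)) (bj * P.K + j) = true :=
    rc2a_one hP (x := 3 * c - 1) hi2 hj (by omega)
      (by rw [rc2a_bx3 _ hr3, if_neg (by omega)])
  have hrk := rc2a_rk (bi := bi) (bj := bj) hP hi hj hc h'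
  rw [rc2a_cls2_out _ _ _ hr hA2 hc (fun h => by have := hs1 h; omega)
    (fun h => by have := hs2 h; omega)] at hrk
  have hrk2 : P.rk (bi * P.K + (i + 1), bj * P.K + j) = 7 * P.K + 10 +
      2 * rem data0 P.arr ⟨bi * P.K + i + 1, bj * P.K + j + 1, Lane.T 0⟩ + 1 := hrk
  have e2 : rem data0 P.arr ⟨bi * P.K + i + 1, bj * P.K + j + 1, Lane.T 0⟩ =
      rem data0 P.arr ⟨bi * P.K + i + 1, bj * P.K + j + 1 + 1, Lane.L 42 0⟩ + 1 := rem_T1 hf a2
  have p0 : P.rk (bi * P.K + i, bj * P.K + j) < P.rk (bi * P.K + (i + 1), bj * P.K + j) := by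
    rw [rk_one a0, hrk2]
    omega
  have p1 : P.rk (bi * P.K + i, bj * P.K + (j + 1)) <
      P.rk (bi * P.K + (i + 1), bj * P.K + j) := by
    rw [rk_one a1, hrk2]
    omega
  have p2 : P.rk (bi * P.K + (i + 1), bj * P.K + (j + 1)) <
      P.rk (bi * P.K + (i + 1), bj * P.K + j) := by
    rw [rk_one a2, hrk2]
    omega
  have p4 : P.rk (bi * P.K + (i + 1 + 1), bj * P.K + j) <
      P.rk (bi * P.K + (i + 1), bj * P.K + j) := by
    rw [rk_one a4, hrk2]
    omega
  have p3 : P.rk (bi * P.K + (i + 1 + 1), bj * P.K + (j + 1)) <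
      P.rk (bi * P.K + (i + 1), bj * P.K + j) := by
    have hx3 : j + 1 + P.K - (i + 1 + 1) - 1 = 3 * c := by omega
    by_cases hcl3 : P.cl3 (P.arr bi bj) A c = true
    · have b3 : P.bx (P.arr bi bj) (i + 1 + 1) (3 * c) = false := by
        rw [rc2a_bx3 _ hr3, if_pos hm0, hA3, hc0, hcl3]
        rfl
      have k3 := rc2a_rk (bi := bi) (bj := bj) hP hi2 hj1 hx3 b3
      have hcls3 : P.cls (P.arr bi bj) (bi * P.K + (i + 1 + 1)) (bj * P.K + (j + 1)) (i + 1 + 1)
          (j + 1) =
          (if (P.ev (P.arr bi bj) A).t = 1 ∧ c = (P.ev (P.arr bi bj) A).x then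
          Cl.s ⟨bi * P.K + i + 1, bj * P.K + j + 1 + 1, Lane.L 42 0⟩ 1
        else Cl.s ⟨bi * P.K + i + 1 + 1, bj * P.K + j + 1 + 1, Lane.T 0⟩ 0) := by
        unfold Par.cls
        rw [if_neg (by omega), if_neg (by omega), if_neg (by omega), if_pos hr3, hx3, hA3, hc0]
        rfl
      rw [hcls3] at k3
      by_cases hst : (P.ev (P.arr bi bj) A).t = 1 ∧ c = (P.ev (P.arr bi bj) A).x
      · rw [if_pos hst] at k3
        have k3' : P.rk (bi * P.K + (i + 1 + 1), bj * P.K + (j + 1)) = 7 * P.K + 10 +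
            2 * rem data0 P.arr ⟨bi * P.K + i + 1, bj * P.K + j + 1 + 1, Lane.L 42 0⟩ + 1 := k3
        rw [k3', hrk2, e2]
        omega
      · rw [if_neg hst] at k3
        have k3' : P.rk (bi * P.K + (i + 1 + 1), bj * P.K + (j + 1)) = 7 * P.K + 10 +
            2 * rem data0 P.arr ⟨bi * P.K + i + 1 + 1, bj * P.K + j + 1 + 1, Lane.T 0⟩ := k3
        have hs0 : sym (P.ev (P.arr bi bj) A) c = 0 := by
          unfold sym at hs ⊢
          by_cases h1 : (P.ev (P.arr bi bj) A).t = 1
          · have h2 : ¬ c = (P.ev (P.arr bi bj) A).x := fun h => hst ⟨h1, h⟩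
            rw [if_pos h1, if_neg h2] at hs ⊢
            split_ifs at hs ⊢ <;> omega
          · rw [if_neg h1] at hs ⊢
            split_ifs at hs ⊢ <;> omega
        have a22 : P.arr (bi * P.K + (i + 1)) (bj * P.K + (j + 1 + 1)) = true := by
          refine rc2a_one hP (x := 3 * c + 2) hi (by omega) (by omega) ?_
          rw [rc2a_bx2 _ hr, hA2, hc2, if_pos hs0, if_neg (by omega)]
        have e3 : rem data0 P.arr ⟨bi * P.K + i + 1, bj * P.K + j + 1 + 1, Lane.L 42 0⟩ =
            rem data0 P.arr ⟨bi * P.K + i + 1 + 1, bj * P.K + j + 1 + 1, Lane.T 0⟩ + 1 :=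
          rem_L1 hf a22
        rw [k3', hrk2, e2, e3]
        omega
    · have b3 : P.bx (P.arr bi bj) (i + 1 + 1) (3 * c) = true := by
        rw [rc2a_bx3 _ hr3, if_pos hm0, hA3, hc0]
        revert hcl3
        cases P.cl3 (P.arr bi bj) A c <;> simp
      rw [rc2a_one2 hP hi2 hj1 hx3 b3, hrk2]
      omega
  -- the left neighbours
  have e0 : rem data0 P.arr ⟨bi * P.K + i, bj * P.K + j, Lane.T 0⟩ =
      rem data0 P.arr ⟨bi * P.K + i, bj * P.K + j + 1, Lane.L 42 0⟩ + 1 := rem_T1 hf a0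
  have e1 : rem data0 P.arr ⟨bi * P.K + i, bj * P.K + j + 1, Lane.L 42 0⟩ =
      rem data0 P.arr ⟨bi * P.K + i + 1, bj * P.K + j + 1, Lane.T 0⟩ + 1 := rem_L1 hf a1
  rcases Nat.eq_zero_or_pos j with hj0 | hj0
  · subst hj0
    rcases Nat.eq_zero_or_pos bj with hbj | hbj
    · -- no left neighbours
      subst hbj
      exact rc_mk_left (by omega) (by omega) ![0, 0, 0, 0, 0, 2, 2, 2] (by decide) (by decide)
        rfl rfl rfl (rc2a_lt p0) (rc2a_lt p1) (rc2a_lt p2) (rc2a_lt p3) (rc2a_lt p4)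
    · -- left neighbours in the left block
      obtain ⟨d, rfl⟩ : ∃ d, bj = d + 1 := ⟨bj - 1, by omega⟩
      have eJ : (d + 1) * P.K + 0 - 1 = d * P.K + (P.K - 1) := by
        rw [Nat.add_mul]
        omega
      have hKp : P.K - 1 < P.K := by omega
      have hva' := va_all hP (P.arr bi d) A hAQ
      have p5 : P.rk (bi * P.K + (i + 1 + 1), d * P.K + (P.K - 1)) <
          P.rk (bi * P.K + (i + 1), (d + 1) * P.K + 0) := by
        rw [rc2a_one2 hP (x := P.K + P.K - (i + 1 + 1) - 2) hi2 hKp (by omega)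
          (by rw [rc2a_bx3 _ hr3, if_neg (by omega)]), hrk2]
        omega
      have p6 : P.rk (bi * P.K + (i + 1), d * P.K + (P.K - 1)) <
          P.rk (bi * P.K + (i + 1), (d + 1) * P.K + 0) := by
        rw [rc2a_one2 hP (x := P.K + P.K - (i + 1) - 2) hi hKp (by omega) (by
          rw [rc2a_bx2 _ hr, hA2, if_pos, if_neg (by omega)]
          obtain ⟨c', hc'⟩ : ∃ c', (P.K + P.K - (i + 1) - 2) / 3 = c' := ⟨_, rfl⟩
          rw [hc']
          have hcc : c' + 2 * A + 2 = 2 * P.Q := by omega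
          by_cases ht : (P.ev (P.arr bi d) A).t = 0
          · unfold sym
            rw [if_neg (by omega), if_neg (by omega)]
          · have hq := (hva'.quiet ht).2.2.2.2.2
            have hxy := fun h => (hva'.ok.t1 h).2.1
            clear hs hs1 hs2 p0 p1 p2 p3 p4 p5 hrk2 hrk e0 e1 e2
            unfold lst at hq
            unfold sym last
            split_ifs at hq ⊢ <;> omega), hrk2]
        omega
      have hx7 : P.K - 1 + P.K - i - 1 = 3 * (2 * P.Q - 2 * A - 1) := by omega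
      have b7 : P.bx (P.arr bi d) i (3 * (2 * P.Q - 2 * A - 1)) = false := by
        rw [rc2a_bx1 _ hr1, decide_eq_true (by omega)]
        rfl
      have k7 := rc2a_rk (bi := bi) (bj := d) hP hi0 hKp hx7 b7
      have hcls7 : P.cls (P.arr bi d) (bi * P.K + i) (d * P.K + (P.K - 1)) i (P.K - 1) =
          (if P.W (P.arr bi d) A (P.exitc A) = true ∨ P.zrow (P.arr bi d) A = true then
            Cl.s ⟨bi * P.K + i - 1, d * P.K + (P.K - 1) + 1, Lane.L 42 0⟩ 1 else Cl.j) := by
        unfold Par.cls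
        rw [if_neg (by omega), if_pos hr1, if_pos (by omega), hA]
      rw [hcls7] at k7
      by_cases hw : P.W (P.arr bi d) A (P.exitc A) = true ∨ P.zrow (P.arr bi d) A = true
      · rw [if_pos hw] at k7
        have eI : bi * P.K + i - 1 = bi * P.K + (i - 1) := by omega
        have eJ2 : d * P.K + (P.K - 1) + 1 = (d + 1) * P.K + 0 := by
          rw [Nat.add_mul]
          omega
        rw [eI, eJ2] at k7
        have k7' : P.rk (bi * P.K + i, d * P.K + (P.K - 1)) = 7 * P.K + 10 +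
            2 * rem data0 P.arr ⟨bi * P.K + (i - 1), (d + 1) * P.K + 0, Lane.L 42 0⟩ + 1 := k7
        have hzr : P.zrow (P.arr bi (d + 1)) A = false := by
          by_contra hcon
          have := (hva.zr (by simpa using hcon)).1 c
          rw [hW] at this
          exact absurd this (by decide)
        have am : P.arr (bi * P.K + (i - 1)) ((d + 1) * P.K + 0) = true := by
          refine rc2a_one hP (x := 3 * c + 2) (by omega) hj (by omega) ?_
          rw [rc2a_bx0 _ (by omega), show (i - 1) / 6 = A by omega, hzr,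
            if_neg (by decide), if_neg, if_neg (by omega)]
          rw [Bool.and_eq_true, decide_eq_true_eq]
          rintro ⟨-, -, h3, -⟩
          omega
        have em : rem data0 P.arr ⟨bi * P.K + (i - 1), (d + 1) * P.K + 0, Lane.L 42 0⟩ =
            rem data0 P.arr ⟨bi * P.K + i, (d + 1) * P.K + 0, Lane.T 0⟩ + 1 := by
          have := rem_L1 hf am
          rwa [show bi * P.K + (i - 1) + 1 = bi * P.K + i by omega] at this
        have p7 : P.rk (bi * P.K + (i + 1), (d + 1) * P.K + 0) <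
            P.rk (bi * P.K + i, d * P.K + (P.K - 1)) := by
          rw [k7', hrk2, em, e0, e1]
          omega
        refine rc_mk (by omega) (by omega) ![0, 0, 0, 0, 0, 0, 0, 2] (by decide) (by decide)
          (rc2a_lt p0) (rc2a_lt p1) (rc2a_lt p2) (rc2a_lt p3) (rc2a_lt p4)
          (rc2a_lt ?_) (rc2a_lt ?_) (rc2a_gt ?_)
        · rw [eJ]
          exact p5
        · rw [eJ]
          exact p6
        · rw [eJ]
          exact p7
      · rw [if_neg hw] at k7
        have p7 : P.rk (bi * P.K + i, d * P.K + (P.K - 1)) <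
            P.rk (bi * P.K + (i + 1), (d + 1) * P.K + 0) := by
          rw [k7, hrk2]
          have := rc2a_j P i (P.K - 1)
          omega
        refine rc_mk (by omega) (by omega) ![0, 0, 0, 0, 0, 0, 0, 0] (by decide) (by decide)
          (rc2a_lt p0) (rc2a_lt p1) (rc2a_lt p2) (rc2a_lt p3) (rc2a_lt p4)
          (rc2a_lt ?_) (rc2a_lt ?_) (rc2a_lt ?_)
        · rw [eJ]
          exact p5
        · rw [eJ]
          exact p6
        · rw [eJ]
          exact p7
  · -- left neighbours in the same block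
    obtain ⟨j, rfl⟩ : ∃ j0, j = j0 + 1 := ⟨j - 1, by omega⟩
    have hj0' : j < P.K := by omega
    have p5 : P.rk (bi * P.K + (i + 1 + 1), bj * P.K + j) <
        P.rk (bi * P.K + (i + 1), bj * P.K + (j + 1)) := by
      rw [rc2a_one2 hP (x := 3 * c - 2) hi2 hj0' (by omega)
        (by rw [rc2a_bx3 _ hr3, if_neg (by omega)]), hrk2]
      omega
    have p6 : P.rk (bi * P.K + (i + 1), bj * P.K + j) <
        P.rk (bi * P.K + (i + 1), bj * P.K + (j + 1)) := by
      rw [rc2a_one2 hP (x := 3 * c - 1) hi hj0' (by omega) (by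
        rw [rc2a_bx2 _ hr, hA2, show (3 * c - 1) / 3 = c - 1 by omega, hs3, if_pos rfl,
          if_neg (by omega)]), hrk2]
      omega
    have hx7 : j + P.K - i - 1 = 3 * c := by omega
    have b7 : P.bx (P.arr bi bj) i (3 * c) = false := by
      rw [rc2a_bx1 _ hr1, decide_eq_true hm0]
      rfl
    have k7 := rc2a_rk (bi := bi) (bj := bj) hP hi0 hj0' hx7 b7
    have hcls7 : P.cls (P.arr bi bj) (bi * P.K + i) (bj * P.K + j) i j =
        Cl.s ⟨bi * P.K + i, bj * P.K + (j + 1), Lane.T 0⟩ 0 := by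
      unfold Par.cls
      rw [if_neg (by omega), if_pos hr1, if_neg (by omega), hA, hx7, hc0, if_pos hcl]
      rfl
    rw [hcls7] at k7
    have k7' : P.rk (bi * P.K + i, bj * P.K + j) = 7 * P.K + 10 +
        2 * rem data0 P.arr ⟨bi * P.K + i, bj * P.K + (j + 1), Lane.T 0⟩ := k7
    have p7 : P.rk (bi * P.K + (i + 1), bj * P.K + (j + 1)) <
        P.rk (bi * P.K + i, bj * P.K + j) := by
      rw [k7', hrk2, e0, e1]
      omega
    exact rc_mk (by omega) (by omega) ![0, 0, 0, 0, 0, 0, 0, 2] (by decide) (by decide)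
      (rc2a_lt p0) (rc2a_lt p1) (rc2a_lt p2) (rc2a_lt p3) (rc2a_lt p4)
      (rc2a_lt p5) (rc2a_lt p6) (rc2a_gt p7)

end Pool.Agent.MP_fadef1_lc
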