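import Pool.Agent.Lib.MP_fadef1_lc.Mg.G014
import Pool.Agent.Lib.MP_fadef1_lc.Mg.G012

/-! Ring condition: gates after the trigger. -/

namespace Pool.Agent.MP_fadef1_lc

variable {P : Par} {i j bi bj : ℕ}

private theorem k_lo {a b : ℕ} (h : b < a) : cmp 0 a b :=
  ⟨fun _ => h, fun h2 => absurd h2 (by decide)⟩

private theorem k_hi {a b : ℕ} (h : a < b) : cmp 2 a b :=
  ⟨fun h2 => absurd h2 (by decide), fun _ => h⟩

private theorem k_one (hP : P.Ok) {bi bj i j : ℕ} (hi : i < P.K) (hj : j < P.K)
    (h : P.bx (P.arr bi bj) i (j + P.K - i - 1) = true) :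
    P.rk (bi * P.K + i, bj * P.K + j) = 0 := by
  rw [rk_loc hP hi hj, if_pos h]

private theorem k_zero (hP : P.Ok) {bi bj i j : ℕ} (hi : i < P.K) (hj : j < P.K)
    (h : P.bx (P.arr bi bj) i (j + P.K - i - 1) = false) :
    P.rk (bi * P.K + i, bj * P.K + j) =
      P.rkc i j (P.cls (P.arr bi bj) (bi * P.K + i) (bj * P.K + j) i j) := by
  rw [rk_loc hP hi hj, if_neg (by rw [h]; decide)]

private theorem k_arr (hP : P.Ok) {bi bj i j : ℕ} (hi : i < P.K) (hj : j < P.K) :
    P.arr (bi * P.K + i) (bj * P.K + j) = P.bx (P.arr bi bj) i (j + P.K - i - 1) := by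
  rw [arr_loc hP bi bj hi hj]; rfl

private theorem k_bx1 {b : Bool} {i y : ℕ} (h : i % 6 = 1) :
    P.bx b i y = !decide (y % 3 = 0) := by
  unfold Par.bx
  rw [if_neg (by omega), if_pos h]

private theorem k_bx2 {b : Bool} {i y s k : ℕ} (h : i % 6 = 2)
    (hs : sym (P.ev b (i / 6)) (y / 3) = s) (hk : y % 3 = k) :
    P.bx b i y = (if s = 0 then
      (if k = 0 then !P.cl b (i / 6) (y / 3) else true)
    else if s = 1 then
      (if k = 0 then !P.cl b (i / 6) (y / 3) else decide (k = 1))
    else if s = 2 then false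
    else decide (k = 2)) := by
  subst hs hk
  unfold Par.bx
  rw [if_neg (by omega), if_neg (by omega), if_pos h]

private theorem k_bx3 {b : Bool} {i y : ℕ} (h : i % 6 = 3)
    (hc : y % 3 ≠ 0 ∨ P.cl3 b (i / 6) (y / 3) = false) : P.bx b i y = true := by
  unfold Par.bx
  rw [if_neg (by omega), if_neg (by omega), if_neg (by omega), if_pos h]
  by_cases h3 : y % 3 = 0
  · rw [if_pos h3]
    rcases hc with hc | hc
    · exact absurd h3 hc
    · rw [hc]; rfl
  · rw [if_neg h3]

private theorem k_cl {b : Bool} {A c : ℕ} (va : VA P b A)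
    (ht : (P.ev b A).t = 2 ∨ (P.ev b A).t = 3) (h1 : s0 (P.ev b A) ≤ c)
    (h2 : c ≤ last (P.ev b A) + 1) : P.cl b A c = decide (c = s0 (P.ev b A)) := by
  unfold Par.cl
  rcases ht with ht | ht
  · obtain ⟨y4, w1, w2, w3⟩ := va.ok.t2 ht
    have h2' : c ≤ (P.ev b A).x + 17 := by
      unfold last at h2; rw [if_pos ht] at h2; exact h2
    by_cases hy : (P.ev b A).y % 2 = 1
    · have hs : s0 (P.ev b A) = (P.ev b A).x + 2 := by
        unfold s0; rw [if_pos ⟨ht, hy⟩]
      have hc1 : isCut (P.ev b A) c = decide (c = (P.ev b A).x) := by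
        unfold isCut; rw [decide_eq_true ht, if_neg (by omega)]; rfl
      rw [hs] at h1 ⊢
      rw [hc1, decide_eq_false (show ¬ c = (P.ev b A).x by omega)]
      by_cases hc : c = (P.ev b A).x + 2
      · rw [hc, w2]; simp
      · have : P.W b A c = false := by
          by_contra hh
          have := w3 c (by simpa using hh) (by omega) hc
          omega
        rw [this, decide_eq_false hc]; rfl
    · have hs : s0 (P.ev b A) = (P.ev b A).x := by
        unfold s0; rw [if_neg (fun h => hy h.2)]
      have hc1 : isCut (P.ev b A) c = decide (c = (P.ev b A).x + 2) := by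
        unfold isCut; rw [decide_eq_true ht, if_pos (by omega)]; rfl
      rw [hs] at h1 ⊢
      rw [hc1]
      by_cases hc : c = (P.ev b A).x
      · rw [hc, w1]; simp
      · rw [decide_eq_false hc]
        by_cases hc2 : c = (P.ev b A).x + 2
        · rw [decide_eq_true hc2]; simp
        · have : P.W b A c = false := by
            by_contra hh
            have := w3 c (by simpa using hh) hc hc2
            omega
          rw [this]; rfl
  · obtain ⟨w1, w3⟩ := va.ok.t3 ht
    have h2' : c ≤ (P.ev b A).x + 15 := by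
      unfold last at h2; rw [if_neg (by omega), if_pos ht] at h2; exact h2
    have hs : s0 (P.ev b A) = (P.ev b A).x := by
      unfold s0; rw [if_neg (by omega)]
    have hc1 : isCut (P.ev b A) c = false := by
      unfold isCut; rw [decide_eq_false (show ¬ (P.ev b A).t = 2 by omega)]; rfl
    rw [hs] at h1 ⊢
    rw [hc1]
    by_cases hc : c = (P.ev b A).x
    · rw [hc, w1]; simp
    · have : P.W b A c = false := by
        by_contra hh
        have := w3 c (by simpa using hh) hc
        omega
      rw [this, decide_eq_false hc]; rfl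

private theorem k_cl3 {b : Bool} {A c : ℕ} (va : VA P b A)
    (ht : (P.ev b A).t = 2 ∨ (P.ev b A).t = 3) (h1 : (P.ev b A).x ≤ c)
    (h2 : c ≤ s1 (P.ev b A)) : P.cl3 b A c = decide (c = s1 (P.ev b A)) := by
  unfold Par.cl3 Par.cl4 Par.W'
  rw [decide_eq_false (show ¬ (P.ev b A).t = 1 by omega)]
  rcases ht with ht | ht
  · obtain ⟨y4, w1, w2, w3⟩ := va.ok.t2 ht
    have hS : isSrc (P.ev b A) c = decide (c = (P.ev b A).x ∨ c = (P.ev b A).x + 2) := by
      unfold isSrc; rw [if_neg (by omega), if_pos ht]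
    have hD : isDst (P.ev b A) c = decide (c = (P.ev b A).x + 14 ∨ c = (P.ev b A).x + 16) := by
      unfold isDst; rw [if_neg (by omega), if_pos ht]
    have h2' : c ≤ (P.ev b A).x + 16 := by
      unfold s1 at h2; split at h2 <;> omega
    have hW : (P.W b A c && !decide (c = P.exitc A) && !isSrc (P.ev b A) c) = false := by
      by_cases hc : c = (P.ev b A).x ∨ c = (P.ev b A).x + 2
      · rw [hS, decide_eq_true hc]; simp
      · have : P.W b A c = false := by
          by_contra hh
          have := w3 c (by simpa using hh) (by tauto) (by tauto)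
          omega
        simp [this]
    rw [hW, hD]
    by_cases hy : (P.ev b A).y % 2 = 0
    · have hs : s1 (P.ev b A) = (P.ev b A).x + 16 := by
        unfold s1; rw [if_pos ⟨ht, hy⟩]
      have hn : isNew (P.ev b A) c = decide (c = (P.ev b A).x + 14) := by
        unfold isNew; rw [if_neg (by omega), if_pos ht, if_pos hy]
      rw [hs, hn]
      by_cases hc : c = (P.ev b A).x + 16
      · simp [hc]
      · by_cases hc2 : c = (P.ev b A).x + 14
        · simp [hc2]
        · simp [hc, hc2]
    · have hs : s1 (P.ev b A) = (P.ev b A).x + 14 := by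
        unfold s1; rw [if_neg (fun h => hy h.2)]
      have hn : isNew (P.ev b A) c = decide (c = (P.ev b A).x + 16) := by
        unfold isNew; rw [if_neg (by omega), if_pos ht, if_neg hy]
      rw [hs] at h2 ⊢
      rw [hn]
      by_cases hc : c = (P.ev b A).x + 14
      · simp [hc]
      · have : ¬ c = (P.ev b A).x + 16 := by omega
        simp [hc, this]
  · obtain ⟨w1, w3⟩ := va.ok.t3 ht
    have hs : s1 (P.ev b A) = (P.ev b A).x + 14 := by
      unfold s1; rw [if_neg (by omega)]
    rw [hs] at h2 ⊢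
    have hn : isNew (P.ev b A) c = false := by
      unfold isNew; rw [if_neg (by omega), if_neg (by omega)]
    have hS : isSrc (P.ev b A) c = decide (c = (P.ev b A).x) := by
      unfold isSrc; rw [if_neg (by omega), if_neg (by omega), if_pos ht]
    have hD : isDst (P.ev b A) c = decide (c = (P.ev b A).x + 14) := by
      unfold isDst; rw [if_neg (by omega), if_neg (by omega), if_pos ht]
    have hW : (P.W b A c && !decide (c = P.exitc A) && !isSrc (P.ev b A) c) = false := by
      by_cases hc : c = (P.ev b A).x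
      · rw [hS, decide_eq_true hc]; simp
      · have : P.W b A c = false := by
          by_contra hh
          have := w3 c (by simpa using hh) hc
          omega
        simp [this]
    rw [hW, hD, hn]
    simp

private theorem k_num {b : Bool} {A : ℕ} (va : VA P b A)
    (ht : (P.ev b A).t = 2 ∨ (P.ev b A).t = 3) :
    lst (P.ev b A) = last (P.ev b A) ∧ (P.ev b A).x ≤ s0 (P.ev b A) ∧
      s0 (P.ev b A) + 1 ≤ trig (P.ev b A) ∧ trig (P.ev b A) ≤ s0 (P.ev b A) + 13 ∧
      trig (P.ev b A) + 1 ≤ s1 (P.ev b A) ∧ s1 (P.ev b A) ≤ trig (P.ev b A) + 11 ∧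
      s1 (P.ev b A) ≤ last (P.ev b A) := by
  rcases ht with ht | ht
  · obtain ⟨y4, -⟩ := va.ok.t2 ht
    have hl : lst (P.ev b A) = (P.ev b A).x + 16 := by
      unfold lst; rw [if_neg (by omega), if_pos ht]
    have hl2 : last (P.ev b A) = (P.ev b A).x + 16 := by unfold last; rw [if_pos ht]
    have htr : trig (P.ev b A) = (P.ev b A).x + 12 - 3 * (P.ev b A).y := by
      unfold trig; rw [if_pos ht]
    rw [hl, hl2, htr]
    by_cases hy : (P.ev b A).y % 2 = 0
    · have hs : s1 (P.ev b A) = (P.ev b A).x + 16 := by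
        unfold s1; rw [if_pos ⟨ht, hy⟩]
      have hs' : s0 (P.ev b A) = (P.ev b A).x := by
        unfold s0; rw [if_neg (by omega)]
      rw [hs, hs']
      refine ⟨rfl, by omega, by omega, by omega, by omega, by omega, by omega⟩
    · have hs : s1 (P.ev b A) = (P.ev b A).x + 14 := by
        unfold s1; rw [if_neg (fun h => hy h.2)]
      have hs' : s0 (P.ev b A) = (P.ev b A).x + 2 := by
        unfold s0; rw [if_pos ⟨ht, by omega⟩]
      rw [hs, hs']
      refine ⟨rfl, by omega, by omega, by omega, by omega, by omega, by omega⟩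
  · unfold lst last trig s0 s1
    rw [if_neg (by omega), if_neg (by omega), if_pos ht, if_neg (by omega), if_pos ht,
      if_neg (by omega), if_neg (by omega), if_neg (by omega)]
    refine ⟨rfl, by omega, by omega, by omega, by omega, by omega, by omega⟩

/-- chain cells of a gate after the trigger. First cell (`x = 3 trig + 3`): the pillar
`(i-1, j-1)` is higher, the left neighbour is the trigger (`1`); then: the left neighbour is higher. The
wall of channel `s1` in row phase 3 is below the last cell (lower). -/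
theorem rc_gate2 (hP : P.Ok) (hf : AllFin P) (hi : i < P.K) (hj : j < P.K)
    (hr : i % 6 = 2) (ht : (P.ev (P.arr bi bj) (i / 6)).t = 2 ∨ (P.ev (P.arr bi bj) (i / 6)).t = 3)
    (h1 : 3 * trig (P.ev (P.arr bi bj) (i / 6)) + 2 < (j + P.K - i - 1)) (h2 : (j + P.K - i - 1) ≤ 3 * s1 (P.ev (P.arr bi bj) (i / 6)) + 1) :
    RC P (bi * P.K + i) (bj * P.K + j) := by
  have hK : P.K = 6 * P.QQ := rfl
  have hQ : P.Q = 2 * P.QQ := rfl
  have hQQ : i / 6 < P.QQ := by omega
  have va := va_all hP (P.arr bi bj) (i / 6) hQQ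
  obtain ⟨q1, q2, q3, q4, q5, q6⟩ := va.quiet (by omega)
  obtain ⟨e1, e2, e3, e4, e5, e6, e7⟩ := k_num va ht
  rw [e1] at q6
  have hsym : ∀ c, sym (P.ev (P.arr bi bj) (i / 6)) c =
      if (P.ev (P.arr bi bj) (i / 6)).x ≤ c ∧ c ≤ last (P.ev (P.arr bi bj) (i / 6)) then
        (if c = trig (P.ev (P.arr bi bj) (i / 6)) then 3 else 2) else 0 := by
    intro c; unfold sym; rw [if_neg (by omega), if_pos ht]
  have hbz : ∀ y, 3 * (P.ev (P.arr bi bj) (i / 6)).x ≤ y →
      y ≤ 3 * last (P.ev (P.arr bi bj) (i / 6)) + 2 →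
      y ≠ 3 * trig (P.ev (P.arr bi bj) (i / 6)) + 2 → P.bx (P.arr bi bj) i y = false := by
    intro y y1 y2 y3
    by_cases h' : y / 3 = trig (P.ev (P.arr bi bj) (i / 6))
    · rw [k_bx2 (s := 3) (k := y % 3) hr (by rw [hsym, if_pos (by omega), if_pos h']) rfl]
      have : ¬ y % 3 = 2 := by omega
      simp [this]
    · rw [k_bx2 (s := 2) (k := y % 3) hr (by rw [hsym, if_pos (by omega), if_neg h']) rfl]; rfl
  have hv3 : ∀ j' g, j' < P.K → 3 * trig (P.ev (P.arr bi bj) (i / 6)) + 2 < j' + P.K - i - 1 →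
      j' + P.K - i - 1 ≤ 3 * s1 (P.ev (P.arr bi bj) (i / 6)) + 1 →
      g = 3 * s1 (P.ev (P.arr bi bj) (i / 6)) + 2 - (j' + P.K - i - 1) →
      P.rk (bi * P.K + i, bj * P.K + j') =
        7 * P.K + 10 + 2 * rem data0 P.arr ⟨bi * P.K + i, bj * P.K + j', Lane.L g 0⟩ + 0 := by
    intro j' g hj' hy hy' hg
    subst hg
    rw [k_zero hP hi hj' (hbz _ (by omega) (by omega) (by omega))]
    unfold Par.cls
    rw [if_neg (by omega), if_neg (by omega), if_pos hr, if_neg (by omega),
      if_pos ⟨ht, by omega, by omega⟩, if_neg (by omega), if_neg (by omega), if_neg (by omega),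
      if_neg (by omega), if_pos hy']
    rfl
  have harr : ∀ j', j' < P.K → 3 * (P.ev (P.arr bi bj) (i / 6)).x ≤ j' + P.K - i - 1 →
      j' + P.K - i - 1 ≤ 3 * last (P.ev (P.arr bi bj) (i / 6)) + 2 →
      j' + P.K - i - 1 ≠ 3 * trig (P.ev (P.arr bi bj) (i / 6)) + 2 →
      P.arr (bi * P.K + i) (bj * P.K + j') = false := by
    intro j' hj' y1 y2 y3
    rw [k_arr hP hi hj']
    exact hbz _ y1 y2 y3
  -- row above
  have hup : ∀ j', j' < P.K → trig (P.ev (P.arr bi bj) (i / 6)) + 1 < (j' + P.K - (i - 1) - 1) / 3 →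
      (j' + P.K - (i - 1) - 1) / 3 ≤ s1 (P.ev (P.arr bi bj) (i / 6)) + 1 →
      P.rk (bi * P.K + i - 1, bj * P.K + j') ≤ 1 + 3 * P.K := by
    intro j' hj' y1 y2
    rw [show bi * P.K + i - 1 = bi * P.K + (i - 1) by omega]
    by_cases hb : P.bx (P.arr bi bj) (i - 1) (j' + P.K - (i - 1) - 1) = true
    · rw [k_one hP (by omega) hj' hb]; omega
    · rw [k_zero hP (by omega) hj' (by simpa using hb)]
      unfold Par.cls
      rw [if_neg (by omega), if_pos (by omega), if_neg (by omega),
        show (i - 1) / 6 = i / 6 by omega, if_neg ?_, if_neg (by omega)]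
      · show 1 + (3 * P.K - (i - 1 + 2 * j')) ≤ 1 + 3 * P.K
        omega
      · rw [k_cl va ht (by omega) (by omega), decide_eq_true_eq]
        omega
  have hup1 : ∀ j', j' < P.K → (j' + P.K - (i - 1) - 1) % 3 ≠ 0 →
      P.rk (bi * P.K + i - 1, bj * P.K + j') = 0 := by
    intro j' hj' y1
    rw [show bi * P.K + i - 1 = bi * P.K + (i - 1) by omega]
    refine k_one hP (by omega) hj' ?_
    rw [k_bx1 (by omega), decide_eq_false y1]; rfl
  -- row below
  have hdn : ∀ j', j' < P.K → (j' + P.K - (i + 1) - 1) % 3 ≠ 0 ∨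
      (s0 (P.ev (P.arr bi bj) (i / 6)) ≤ (j' + P.K - (i + 1) - 1) / 3 ∧
      (j' + P.K - (i + 1) - 1) / 3 < s1 (P.ev (P.arr bi bj) (i / 6))) →
      P.rk (bi * P.K + i + 1, bj * P.K + j') = 0 := by
    intro j' hj' y1
    refine k_one hP (i := i + 1) (by omega) hj' (k_bx3 (by omega) ?_)
    rcases y1 with y1 | y1
    · exact Or.inl y1
    · right
      rw [show (i + 1) / 6 = i / 6 by omega, k_cl3 va ht (by omega) (by omega)]
      exact decide_eq_false (by omega)
  have hwl : ∀ j', j' < P.K → (j' + P.K - (i + 1) - 1) = 3 * s1 (P.ev (P.arr bi bj) (i / 6)) →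
      P.rk (bi * P.K + i + 1, bj * P.K + j') = 7 * P.K + 10 +
        2 * rem data0 P.arr ⟨bi * P.K + i + 1, bj * P.K + j' + 1, Lane.T 0⟩ + 0 := by
    intro j' hj' y1
    have hb : P.bx (P.arr bi bj) (i + 1) (j' + P.K - (i + 1) - 1) = false := by
      unfold Par.bx
      rw [if_neg (by omega), if_neg (by omega), if_neg (by omega), if_pos (by omega),
        if_pos (by omega), show (i + 1) / 6 = i / 6 by omega, k_cl3 va ht (by omega) (by omega),
        decide_eq_true (by omega)]
      rfl
    have := k_zero hP (bi := bi) (bj := bj) (i := i + 1) (by omega) hj' hb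
    rw [show bi * P.K + i + 1 = bi * P.K + (i + 1) from rfl, this]
    unfold Par.cls
    rw [if_neg (by omega), if_neg (by omega), if_neg (by omega), if_pos (by omega),
      show (i + 1) / 6 = i / 6 by omega, if_neg (by omega)]
    rfl
  have hJ : bj * P.K + j - 1 = bj * P.K + (j - 1) := by omega
  have hJ' : bj * P.K + (j - 1) + 1 = bj * P.K + j := by omega
  have ha : P.arr (bi * P.K + i) (bj * P.K + j) = false :=
    harr j hj (by omega) (by omega) (by omega)
  have hpos : 7 * P.K + 10 ≤ P.rk (bi * P.K + i, bj * P.K + j) := by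
    rw [hv3 j _ hj (by omega) (by omega) rfl]; omega
  have n2 : P.rk (bi * P.K + i, bj * P.K + j + 1) < P.rk (bi * P.K + i, bj * P.K + j) := by
    rw [Nat.add_assoc (bj * P.K)]
    by_cases hl : j + P.K - i - 1 = 3 * s1 (P.ev (P.arr bi bj) (i / 6)) + 1
    · rw [k_zero hP hi (by omega) (hbz _ (by omega) (by omega) (by omega))]
      unfold Par.cls
      rw [if_neg (by omega), if_neg (by omega), if_pos hr, if_neg (by omega),
        if_pos ⟨ht, by omega, by omega⟩, if_neg (by omega), if_neg (by omega), if_neg (by omega),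
        if_neg (by omega), if_neg (by omega)]
      show 1 + (3 * P.K - (i + 2 * (j + 1))) < _
      omega
    · rw [hv3 j _ hj (by omega) (by omega) rfl,
        rem_Lg hf ha (by omega) (by omega) (by omega) (by omega),
        hv3 (j + 1) (3 * s1 (P.ev (P.arr bi bj) (i / 6)) + 2 - (j + P.K - i - 1) - 1)
          (by omega) (by omega) (by omega) (by omega), Nat.add_assoc (bj * P.K)]
      omega
  -- walls below
  have rL : ∀ m, m = 1 ∨ m = 2 → j + P.K - i - 1 + m = 3 * s1 (P.ev (P.arr bi bj) (i / 6)) + 2 →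
      7 * P.K + 10 + 2 * rem data0 P.arr ⟨bi * P.K + i + 1, bj * P.K + (j + m), Lane.T 0⟩ <
        P.rk (bi * P.K + i, bj * P.K + j) := by
    intro m hm hx
    rw [hv3 j m hj (by omega) (by omega) (by omega)]
    rcases hm with rfl | rfl
    · have a1 : P.arr (bi * P.K + i) (bj * P.K + (j + 1)) = false :=
        harr (j + 1) (by omega) (by omega) (by omega) (by omega)
      have r1 := rem_Lg hf (g := 1) ha (by omega) (by omega) (by omega) (by omega)
      have r2 := rem_Lz hf a1
      rw [r1, show bj * P.K + j + 1 = bj * P.K + (j + 1) from rfl, show (1 - 1 : ℕ) = 0 from rfl, r2]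
      omega
    · have a1 : P.arr (bi * P.K + i) (bj * P.K + (j + 1)) = false :=
        harr (j + 1) (by omega) (by omega) (by omega) (by omega)
      have a2 : P.arr (bi * P.K + i) (bj * P.K + (j + 2)) = false :=
        harr (j + 2) (by omega) (by omega) (by omega) (by omega)
      have r1 := rem_Lg hf (g := 2) ha (by omega) (by omega) (by omega) (by omega)
      have r2 := rem_Lg hf (g := 1) a1 (by omega) (by omega) (by omega) (by omega)
      have r3 := rem_Lz hf a2
      rw [r1, show bj * P.K + j + 1 = bj * P.K + (j + 1) from rfl, show (2 - 1 : ℕ) = 1 from rfl, r2,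
        show bj * P.K + (j + 1) + 1 = bj * P.K + (j + 2) from rfl, show (1 - 1 : ℕ) = 0 from rfl, r3]
      omega
  have n3 : P.rk (bi * P.K + i + 1, bj * P.K + j + 1) < P.rk (bi * P.K + i, bj * P.K + j) := by
    by_cases hl : j + P.K - i - 1 = 3 * s1 (P.ev (P.arr bi bj) (i / 6))
    · have := rL 2 (by omega) (by omega)
      rw [Nat.add_assoc (bj * P.K), hwl (j + 1) (by omega) (by omega)]
      exact this
    · rw [Nat.add_assoc (bj * P.K), hdn (j + 1) (by omega) (by omega)]; omega
  have n4 : P.rk (bi * P.K + i + 1, bj * P.K + j) < P.rk (bi * P.K + i, bj * P.K + j) := by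
    by_cases hl : j + P.K - i - 1 = 3 * s1 (P.ev (P.arr bi bj) (i / 6)) + 1
    · have := rL 1 (by omega) (by omega)
      rw [hwl j (by omega) (by omega)]
      exact this
    · rw [hdn j (by omega) (by omega)]; omega
  have n5 : P.rk (bi * P.K + i + 1, bj * P.K + j - 1) < P.rk (bi * P.K + i, bj * P.K + j) := by
    rw [hJ, hdn (j - 1) (by omega) (by omega)]; omega
  have n0 : P.rk (bi * P.K + i - 1, bj * P.K + j) < P.rk (bi * P.K + i, bj * P.K + j) := by
    by_cases hk : (j + P.K - i - 1 + 1) % 3 = 0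
    · have := hup j (by omega) (by omega) (by omega)
      omega
    · rw [hup1 j (by omega) (by omega)]; omega
  have n1 : P.rk (bi * P.K + i - 1, bj * P.K + j + 1) < P.rk (bi * P.K + i, bj * P.K + j) := by
    rw [Nat.add_assoc (bj * P.K)]
    by_cases hk : (j + P.K - i - 1 + 2) % 3 = 0
    · have := hup (j + 1) (by omega) (by omega) (by omega)
      omega
    · rw [hup1 (j + 1) (by omega) (by omega)]; omega
  rcases Nat.eq_or_lt_of_le (Nat.succ_le_of_lt h1) with hx | hx
  · -- first cell
    have n6 : P.rk (bi * P.K + i, bj * P.K + j - 1) = 0 := by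
      rw [hJ]
      refine k_one hP hi (by omega) ?_
      rw [k_bx2 (s := 3) (k := 2) hr (by rw [hsym, if_pos (by omega), if_pos (by omega)])
        (by omega)]; rfl
    have n7 : P.rk (bi * P.K + i, bj * P.K + j) < P.rk (bi * P.K + i - 1, bj * P.K + j - 1) := by
      have ht' : (P.ev (P.arr bi bj) (i / 6)).t = 2 ∧ (P.ev (P.arr bi bj) (i / 6)).y < 4 ∨
          (P.ev (P.arr bi bj) (i / 6)).t = 3 := by
        rcases ht with ht | ht
        · exact Or.inl ⟨ht, (va.ok.t2 ht).1⟩
        · exact Or.inr ht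
      have ha1 : P.arr (bi * P.K + i) (bj * P.K + (j - 1)) = true := by
        rw [k_arr hP hi (by omega), k_bx2 (s := 3) (k := 2) hr
          (by rw [hsym, if_pos (by omega), if_pos (by omega)]) (by omega)]; rfl
      have r1 := rem_trig hf ha1 ht'
      rw [hJ'] at r1
      rw [hJ, show bi * P.K + i - 1 = bi * P.K + (i - 1) by omega,
        k_zero hP (i := i - 1) (by omega) (by omega) (by
          rw [k_bx1 (by omega), decide_eq_true (by omega)]; rfl)]
      unfold Par.cls
      rw [if_neg (by omega), if_pos (by omega), if_neg (by omega),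
        show (i - 1) / 6 = i / 6 by omega, if_neg (by
          rw [k_cl va ht (by omega) (by omega), decide_eq_true_eq]; omega),
        if_pos ⟨ht, by omega⟩]
      show _ < 7 * P.K + 10 + 2 * rem data0 P.arr ⟨bi * P.K + (i - 1) + 1, bj * P.K + (j - 1),
        Lane.L (trL (P.ev (P.arr bi bj) (i / 6))) 0⟩ + 0
      rw [show bi * P.K + (i - 1) + 1 = bi * P.K + i by omega, r1,
        hv3 j (3 * s1 (P.ev (P.arr bi bj) (i / 6)) + 2 -
          (3 * trig (P.ev (P.arr bi bj) (i / 6)) + 3)) hj (by omega) (by omega) (by omega)]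
      omega
    exact rc_mk (by omega) (by omega) ![0, 0, 0, 0, 0, 0, 0, 2] (by decide) (by decide)
      (k_lo n0) (k_lo n1) (k_lo n2) (k_lo n3) (k_lo n4) (k_lo n5) (k_lo (by omega)) (k_hi n7)
  · -- later cells
    have n6 : P.rk (bi * P.K + i, bj * P.K + j) < P.rk (bi * P.K + i, bj * P.K + j - 1) := by
      rw [hJ]
      have ha1 : P.arr (bi * P.K + i) (bj * P.K + (j - 1)) = false :=
        harr (j - 1) (by omega) (by omega) (by omega) (by omega)
      have r1 := rem_Lg hf (g := 3 * s1 (P.ev (P.arr bi bj) (i / 6)) + 2 - (j - 1 + P.K - i - 1))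
        ha1 (by omega) (by omega) (by omega) (by omega)
      rw [hJ'] at r1
      rw [hv3 (j - 1) _ (by omega) (by omega) (by omega) rfl, r1,
        hv3 j (3 * s1 (P.ev (P.arr bi bj) (i / 6)) + 2 - (j - 1 + P.K - i - 1) - 1)
          hj (by omega) (by omega) (by omega)]
      omega
    have n7 : P.rk (bi * P.K + i - 1, bj * P.K + j - 1) < P.rk (bi * P.K + i, bj * P.K + j) := by
      rw [hJ]
      by_cases hk : (j + P.K - i - 1) % 3 = 0
      · have := hup (j - 1) (by omega) (by omega) (by omega)
        omega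
      · rw [hup1 (j - 1) (by omega) (by omega)]; omega
    exact rc_mk (by omega) (by omega) ![0, 0, 0, 0, 0, 0, 2, 0] (by decide) (by decide)
      (k_lo n0) (k_lo n1) (k_lo n2) (k_lo n3) (k_lo n4) (k_lo n5) (k_hi n6) (k_lo n7)

end Pool.Agent.MP_fadef1_lc
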