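import Pool.Agent.Lib.MP_fadef1_lc.Mg.G014
import Pool.Agent.Lib.MP_fadef1_lc.Mg.G012

/-! Ring condition: row phase 4. -/

namespace Pool.Agent.MP_fadef1_lc

variable {P : Par} {i j bi bj : ℕ}

private theorem loc_one (hP : P.Ok) (hi : i < P.K) (hj : j < P.K)
    (h : P.bx (P.arr bi bj) i (j + P.K - i - 1) = true) :
    P.rk (bi * P.K + i, bj * P.K + j) = 0 := by
  rw [rk_loc hP hi hj, if_pos h]

private theorem loc_arr (hP : P.Ok) (bi bj : ℕ) (hi : i < P.K) (hj : j < P.K) :
    P.arr (bi * P.K + i) (bj * P.K + j) = P.bx (P.arr bi bj) i (j + P.K - i - 1) :=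
  arr_loc hP bi bj hi hj

private theorem loc_s (hP : P.Ok) (hi : i < P.K) (hj : j < P.K)
    (h : P.bx (P.arr bi bj) i (j + P.K - i - 1) = false) {p : Pos} {t : ℕ}
    (hc : P.cls (P.arr bi bj) (bi * P.K + i) (bj * P.K + j) i j = Cl.s p t) :
    P.rk (bi * P.K + i, bj * P.K + j) = 7 * P.K + 10 + 2 * rem data0 P.arr p + t := by
  rw [rk_loc hP hi hj, h, hc]
  rfl

private theorem bx3 {b : Bool} {i x : ℕ} (hr : i % 6 = 3) :
    P.bx b i x = if x % 3 = 0 then !P.cl3 b (i / 6) (x / 3) else true := by
  unfold Par.bx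
  rw [if_neg (by omega), if_neg (by omega), if_neg (by omega), if_pos hr]

private theorem bx4 {b : Bool} {i x : ℕ} (hr : i % 6 = 4) :
    P.bx b i x = if x % 3 = 0 then !P.cl4 b (i / 6) (x / 3)
      else if x % 3 = 1 then P.W' b (i / 6) (x / 3) || decide (x + i + 1 = P.K)
      else true := by
  unfold Par.bx
  rw [if_neg (by omega), if_neg (by omega), if_neg (by omega), if_neg (by omega), if_pos hr]

private theorem bx5 {b : Bool} {i x : ℕ} (hr : i % 6 = 5) :
    P.bx b i x = if x % 3 = 0 then !P.cl4 b (i / 6) (x / 3) else true := by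
  unfold Par.bx
  rw [if_neg (by omega), if_neg (by omega), if_neg (by omega), if_neg (by omega),
    if_neg (by omega)]

private theorem cl4_W' {b : Bool} {A c : ℕ} (h : P.cl4 b A c = true) : P.W' b A c = true := by
  unfold Par.cl4 at h
  rw [Bool.and_eq_true] at h
  exact h.1

/-- no wires below the diagonal after the event -/
private theorem W'_lo (hP : P.Ok) {b : Bool} {A c : ℕ} (hA : A < P.QQ) (h : P.W' b A c = true) :
    P.Q ≤ c + 2 * A + 1 := by
  have hV := va_all hP b A hA
  unfold Par.W' at h
  rw [Bool.or_eq_true, Bool.and_eq_true, Bool.and_eq_true] at h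
  rcases h with ⟨⟨h, _⟩, _⟩ | h
  · exact hV.lo c h
  · have hx : (P.ev b A).t ≠ 0 → P.Q + 9 ≤ (P.ev b A).x + 2 * A := fun h0 =>
      (hV.quiet h0).2.2.2.2.1
    have h1 := hV.ok.t1
    unfold isDst at h
    split_ifs at h with e1 e2 e3 e4
    · have := hx (by omega)
      have := h1 e1
      have := of_decide_eq_true h
      omega
    · have := hx (by omega)
      have := of_decide_eq_true h
      omega
    · have := hx (by omega)
      have := of_decide_eq_true h
      omega
    · have := hx (by omega)
      have := of_decide_eq_true h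
      omega

/-- wall in row phase 4: `(i-1, j-1)` higher. Junk (T cell): everything lower except perhaps
`(i-1, j+1)` (status `1`). -/
theorem rc_w4 (hP : P.Ok) (hf : AllFin P) (hi : i < P.K) (hj : j < P.K)
    (hr : i % 6 = 4) (h : P.bx (P.arr bi bj) i (j + P.K - i - 1) = false) :
    RC P (bi * P.K + i) (bj * P.K + j) := by
  have hK : P.K = 6 * P.QQ := rfl
  have hQ : P.Q = 2 * P.QQ := rfl
  have hA : i / 6 < P.QQ := by omega
  have h' := h
  rw [bx4 hr] at h'
  have hi1 : (i - 1) / 6 = i / 6 := by omega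
  have hi2 : (i + 1) / 6 = i / 6 := by omega
  have eI1 : bi * P.K + i - 1 = bi * P.K + (i - 1) := by omega
  have eI2 : bi * P.K + i + 1 = bi * P.K + (i + 1) := by omega
  by_cases hx0 : (j + P.K - i - 1) % 3 = 0
  · -- wall
    rw [if_pos hx0, Bool.not_eq_false'] at h'
    have hW' := cl4_W' h'
    have hj2 : j % 3 = 2 := by omega
    have eJ1 : bj * P.K + j - 1 = bj * P.K + (j - 1) := by omega
    -- the right neighbour and the walk
    have hright : P.arr (bi * P.K + i) (bj * P.K + j + 1) = true ∧
        P.rk (bi * P.K + i, bj * P.K + j + 1) = 0 ∧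
        P.rk (bi * P.K + (i - 1), bj * P.K + j + 1) = 0 ∧
        P.arr (bi * P.K + (i - 1)) (bj * P.K + j + 1) = true ∧
        P.arr (bi * P.K + i) (bj * P.K + j + 1 + 1) = true := by
      by_cases hjK : j + 1 < P.K
      · have e1 : bj * P.K + j + 1 = bj * P.K + (j + 1) := by omega
        have e2 : bj * P.K + (j + 1) + 1 = bj * P.K + (j + 2) := by omega
        have b1 : P.bx (P.arr bi bj) i (j + 1 + P.K - i - 1) = true := by
          rw [bx4 hr, if_neg (by omega), if_pos (by omega)]
          have : (j + 1 + P.K - i - 1) / 3 = (j + P.K - i - 1) / 3 := by omega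
          rw [this, hW', Bool.true_or]
        have b2 : P.bx (P.arr bi bj) (i - 1) (j + 1 + P.K - (i - 1) - 1) = true := by
          rw [bx3 (by omega), if_neg (by omega)]
        have b3 : P.bx (P.arr bi bj) i (j + 2 + P.K - i - 1) = true := by
          rw [bx4 hr, if_neg (by omega), if_neg (by omega)]
        rw [e1, e2]
        refine ⟨?_, loc_one hP hi hjK b1, loc_one hP (by omega) hjK b2, ?_, ?_⟩
        · rw [loc_arr hP bi bj hi hjK, b1]
        · rw [loc_arr hP bi bj (by omega) hjK, b2]
        · rw [loc_arr hP bi bj hi (by omega), b3]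
      · have hjK' : j + 1 = P.K := by omega
        have e1 : bj * P.K + j + 1 = (bj + 1) * P.K + 0 := by
          rw [Nat.add_mul, Nat.one_mul]; omega
        have e2 : (bj + 1) * P.K + 0 + 1 = (bj + 1) * P.K + 1 := by omega
        have b1 : P.bx (P.arr bi (bj + 1)) i (0 + P.K - i - 1) = true := by
          rw [bx4 hr, if_neg (by omega), if_pos (by omega)]
          have : 0 + P.K - i - 1 + i + 1 = P.K := by omega
          rw [decide_eq_true this, Bool.or_true]
        have b2 : P.bx (P.arr bi (bj + 1)) (i - 1) (0 + P.K - (i - 1) - 1) = true := by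
          rw [bx3 (by omega), if_neg (by omega)]
        have b3 : P.bx (P.arr bi (bj + 1)) i (1 + P.K - i - 1) = true := by
          rw [bx4 hr, if_neg (by omega), if_neg (by omega)]
        rw [e1, e2]
        refine ⟨?_, loc_one hP hi (by omega) b1, loc_one hP (by omega) (by omega) b2, ?_, ?_⟩
        · rw [loc_arr hP bi (bj + 1) hi (by omega), b1]
        · rw [loc_arr hP bi (bj + 1) (by omega) (by omega), b2]
        · rw [loc_arr hP bi (bj + 1) hi (by omega), b3]
    obtain ⟨a1, r2, r1, a3, a4⟩ := hright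
    have hw1 : rem data0 P.arr ⟨bi * P.K + i, bj * P.K + j + 1, Lane.T 0⟩ =
        rem data0 P.arr ⟨bi * P.K + i + 1, bj * P.K + j + 1 + 1, Lane.T 0⟩ + 2 := by
      rw [rem_T1 hf a1, rem_L1 hf a4]
    have hrk : P.rk (bi * P.K + i, bj * P.K + j) = 7 * P.K + 10 +
        2 * rem data0 P.arr ⟨bi * P.K + i, bj * P.K + j + 1, Lane.T 0⟩ + 0 := by
      refine loc_s hP hi hj h ?_
      unfold Par.cls
      rw [if_neg (by omega), if_neg (by omega), if_neg (by omega), if_neg (by omega),
        if_pos hr, if_pos hx0]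
    -- down right
    have r3 : P.rk (bi * P.K + (i + 1), bj * P.K + j + 1) < P.rk (bi * P.K + i, bj * P.K + j) := by
      by_cases hjK : j + 1 < P.K
      · have e1 : bj * P.K + j + 1 = bj * P.K + (j + 1) := by omega
        have hx : j + 1 + P.K - (i + 1) - 1 = j + P.K - i - 1 := by omega
        have b1 : P.bx (P.arr bi bj) (i + 1) (j + 1 + P.K - (i + 1) - 1) = false := by
          rw [bx5 (by omega), hx, if_pos hx0, hi2, h']
          rfl
        have := loc_s hP (i := i + 1) (j := j + 1) (by omega) hjK b1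
          (p := ⟨bi * P.K + (i + 1), bj * P.K + (j + 1) + 1, Lane.T 0⟩) (t := 0) (by
          unfold Par.cls
          rw [if_neg (by omega), if_neg (by omega), if_neg (by omega), if_neg (by omega),
            if_neg (by omega)])
        rw [hrk, hw1, e1, this, eI2]
        have e3 : bj * P.K + j + 1 + 1 = bj * P.K + (j + 1) + 1 := by omega
        omega
      · have e1 : bj * P.K + j + 1 = (bj + 1) * P.K + 0 := by
          rw [Nat.add_mul, Nat.one_mul]; omega
        have b1 : P.bx (P.arr bi (bj + 1)) (i + 1) (0 + P.K - (i + 1) - 1) = true := by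
          rw [bx5 (by omega), if_pos (by omega), hi2, Bool.not_eq_true']
          rw [Bool.eq_false_iff]
          intro hc
          have := W'_lo hP hA (cl4_W' hc)
          omega
        rw [hrk, e1, loc_one hP (by omega) (by omega) b1]
        omega
    have r0 : P.rk (bi * P.K + (i - 1), bj * P.K + j) = 0 := by
      refine loc_one hP (by omega) hj ?_
      rw [bx3 (by omega), if_neg (by omega)]
    have r4 : P.rk (bi * P.K + (i + 1), bj * P.K + j) = 0 := by
      refine loc_one hP (by omega) hj ?_
      rw [bx5 (by omega), if_neg (by omega)]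
    have r5 : P.rk (bi * P.K + (i + 1), bj * P.K + (j - 1)) = 0 := by
      refine loc_one hP (by omega) (by omega) ?_
      rw [bx5 (by omega), if_neg (by omega)]
    have r6 : P.rk (bi * P.K + i, bj * P.K + (j - 1)) = 0 := by
      refine loc_one hP hi (by omega) ?_
      rw [bx4 hr, if_neg (by omega), if_neg (by omega)]
    -- up left
    have hx7 : j - 1 + P.K - (i - 1) - 1 = j + P.K - i - 1 := by omega
    have hne : ¬ ((P.ev (P.arr bi bj) (i / 6)).t = 1 ∧
        (j + P.K - i - 1) / 3 = (P.ev (P.arr bi bj) (i / 6)).x) := by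
      rintro ⟨ht, hcx⟩
      have hV := va_all hP (P.arr bi bj) (i / 6) hA
      have := hV.ok.t1 ht
      rw [hcx] at hW'
      unfold Par.W' isSrc isDst at hW'
      rw [if_pos ht, if_pos ht] at hW'
      simp only [decide_true, Bool.not_true, Bool.and_false, Bool.false_or,
        decide_eq_true_eq] at hW'
      omega
    have r7 : P.rk (bi * P.K + (i - 1), bj * P.K + (j - 1)) = 7 * P.K + 10 +
        2 * rem data0 P.arr ⟨bi * P.K + (i - 1), bj * P.K + (j - 1) + 1, Lane.T 0⟩ + 0 := by
      refine loc_s hP (by omega) (by omega) ?_ ?_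
      · rw [bx3 (by omega), hx7, if_pos hx0, hi1]
        unfold Par.cl3
        rw [h', Bool.true_or]
        rfl
      · unfold Par.cls
        rw [if_neg (by omega), if_neg (by omega), if_neg (by omega), if_pos (by omega),
          if_neg (by rw [hx7, hi1]; exact hne)]
    have hw7 : rem data0 P.arr ⟨bi * P.K + (i - 1), bj * P.K + (j - 1) + 1, Lane.T 0⟩ =
        rem data0 P.arr ⟨bi * P.K + i, bj * P.K + j + 1, Lane.T 0⟩ + 2 := by
      have e : bj * P.K + (j - 1) + 1 = bj * P.K + j := by omega
      have e' : bi * P.K + (i - 1) + 1 = bi * P.K + i := by omega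
      have a0 : P.arr (bi * P.K + (i - 1)) (bj * P.K + j) = true := by
        rw [loc_arr hP bi bj (by omega) hj, bx3 (by omega), if_neg (by omega)]
      rw [e, rem_T1 hf a0, rem_L1 hf a3, e']
    refine rc_mk (by omega) (by omega) ![0, 0, 0, 0, 0, 0, 0, 2] (by decide) (by decide)
      ?_ ?_ ?_ ?_ ?_ ?_ ?_ ?_
    all_goals refine ⟨fun h0 => ?_, fun h0 => ?_⟩
    all_goals first | exact absurd h0 (by decide) | skip
    · rw [eI1, r0, hrk]; omega
    · rw [eI1, r1, hrk]; omega
    · rw [r2, hrk]; omega
    · rw [eI2]; exact r3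
    · rw [eI2, r4, hrk]; omega
    · rw [eI2, eJ1, r5, hrk]; omega
    · rw [eJ1, r6, hrk]; omega
    · rw [eI1, eJ1, r7, hrk, hw7]; omega
  · -- junk
    rw [if_neg hx0] at h'
    by_cases hx1 : (j + P.K - i - 1) % 3 = 1
    swap
    · rw [if_neg hx1] at h'
      exact absurd h' (by decide)
    rw [if_pos hx1, Bool.or_eq_false_iff, decide_eq_false_iff_not] at h'
    obtain ⟨hW, hne⟩ := h'
    have hj0 : j % 3 = 0 := by omega
    have hj1 : j ≠ 0 := by omega
    have eJ1 : bj * P.K + j - 1 = bj * P.K + (j - 1) := by omega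
    have eJ2 : bj * P.K + j + 1 = bj * P.K + (j + 1) := by omega
    have hcl : P.cl4 (P.arr bi bj) (i / 6) ((j + P.K - i - 1) / 3) = false := by
      rw [Bool.eq_false_iff]
      intro hc
      rw [cl4_W' hc] at hW
      exact absurd hW (by decide)
    have hpos : 0 < P.rk (bi * P.K + i, bj * P.K + j) :=
      rk_pos hP (by rw [loc_arr hP bi bj hi hj]; exact h)
    have r0 : P.rk (bi * P.K + (i - 1), bj * P.K + j) = 0 := by
      refine loc_one hP (by omega) hj ?_
      rw [bx3 (by omega), if_neg (by omega)]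
    have r2 : P.rk (bi * P.K + i, bj * P.K + (j + 1)) = 0 := by
      refine loc_one hP hi (by omega) ?_
      rw [bx4 hr, if_neg (by omega), if_neg (by omega)]
    have r3 : P.rk (bi * P.K + (i + 1), bj * P.K + (j + 1)) = 0 := by
      refine loc_one hP (by omega) (by omega) ?_
      rw [bx5 (by omega), if_neg (by omega)]
    have r4 : P.rk (bi * P.K + (i + 1), bj * P.K + j) = 0 := by
      refine loc_one hP (by omega) hj ?_
      have hx : (j + P.K - (i + 1) - 1) / 3 = (j + P.K - i - 1) / 3 := by omega
      rw [bx5 (by omega), if_pos (by omega), hi2, hx, hcl]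
      rfl
    have r5 : P.rk (bi * P.K + (i + 1), bj * P.K + (j - 1)) = 0 := by
      refine loc_one hP (by omega) (by omega) ?_
      rw [bx5 (by omega), if_neg (by omega)]
    have r6 : P.rk (bi * P.K + i, bj * P.K + (j - 1)) = 0 := by
      refine loc_one hP hi (by omega) ?_
      have hx : (j - 1 + P.K - i - 1) / 3 = (j + P.K - i - 1) / 3 := by omega
      rw [bx4 hr, if_pos (by omega), hx, hcl]
      rfl
    have r7 : P.rk (bi * P.K + (i - 1), bj * P.K + (j - 1)) = 0 := by
      refine loc_one hP (by omega) (by omega) ?_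
      rw [bx3 (by omega), if_neg (by omega)]
    refine rc_mk (by omega) (by omega) ![0, 1, 0, 0, 0, 0, 0, 0] (by decide) (by decide)
      ?_ ?_ ?_ ?_ ?_ ?_ ?_ ?_
    all_goals refine ⟨fun h0 => ?_, fun h0 => ?_⟩
    all_goals first | exact absurd h0 (by decide) | skip
    · rw [eI1, r0]; exact hpos
    · rw [eJ2, r2]; exact hpos
    · rw [eI2, eJ2, r3]; exact hpos
    · rw [eI2, r4]; exact hpos
    · rw [eI2, eJ1, r5]; exact hpos
    · rw [eJ1, r6]; exact hpos
    · rw [eI1, eJ1, r7]; exact hpos

end Pool.Agent.MP_fadef1_lc
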