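import Pool.Agent.Lib.MP_fadef1_lc.Mg.G014
import Pool.Agent.Lib.MP_fadef1_lc.Mg.G012

/-! Ring condition: row phase 5. -/

namespace Pool.Agent.MP_fadef1_lc

variable {P : Par} {i j bi bj : ℕ}

private theorem loc_one (hP : P.Ok) (hi : i < P.K) (hj : j < P.K)
    (h : P.bx (P.arr bi bj) i (j + P.K - i - 1) = true) :
    P.rk (bi * P.K + i, bj * P.K + j) = 0 := by
  rw [rk_loc hP hi hj, if_pos h]

private theorem loc_arr (hP : P.Ok) (bi bj : ℕ) (hi : i < P.K) (hj : j < P.K) :
    P.arr (bi * P.K + i) (bj * P.K + j) = P.bx (P.arr bi bj) i (j + P.K - i - 1) :=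
  arr_loc hP bi bj hi hj

private theorem loc_s (hP : P.Ok) (hi : i < P.K) (hj : j < P.K)
    (h : P.bx (P.arr bi bj) i (j + P.K - i - 1) = false) {p : Pos} {t : ℕ}
    (hc : P.cls (P.arr bi bj) (bi * P.K + i) (bj * P.K + j) i j = Cl.s p t) :
    P.rk (bi * P.K + i, bj * P.K + j) = 7 * P.K + 10 + 2 * rem data0 P.arr p + t := by
  rw [rk_loc hP hi hj, h, hc]
  rfl

private theorem bx0 {b : Bool} {i x : ℕ} (hr : i % 6 = 0) (hz : P.zrow b (i / 6) = false)
    (hi : i = 0 → P.K + 41 < x) :
    P.bx b i x = if x % 3 = 0 then !P.cl b (i / 6) (x / 3) else true := by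
  unfold Par.bx
  rw [if_pos hr, hz, if_neg (by decide), if_neg]
  intro h
  rw [Bool.and_eq_true, decide_eq_true_eq] at h
  have := hi h.2.1
  omega

private theorem bx4 {b : Bool} {i x : ℕ} (hr : i % 6 = 4) :
    P.bx b i x = if x % 3 = 0 then !P.cl4 b (i / 6) (x / 3)
      else if x % 3 = 1 then P.W' b (i / 6) (x / 3) || decide (x + i + 1 = P.K)
      else true := by
  unfold Par.bx
  rw [if_neg (by omega), if_neg (by omega), if_neg (by omega), if_neg (by omega), if_pos hr]

private theorem bx5 {b : Bool} {i x : ℕ} (hr : i % 6 = 5) :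
    P.bx b i x = if x % 3 = 0 then !P.cl4 b (i / 6) (x / 3) else true := by
  unfold Par.bx
  rw [if_neg (by omega), if_neg (by omega), if_neg (by omega), if_neg (by omega),
    if_neg (by omega)]

private theorem cl4_W' {b : Bool} {A c : ℕ} (h : P.cl4 b A c = true) : P.W' b A c = true := by
  unfold Par.cl4 at h
  rw [Bool.and_eq_true] at h
  exact h.1

/-- no wires below the diagonal after the event -/
private theorem W'_lo (hP : P.Ok) {b : Bool} {A c : ℕ} (hA : A < P.QQ) (h : P.W' b A c = true) :
    P.Q ≤ c + 2 * A + 1 := by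
  have hV := va_all hP b A hA
  unfold Par.W' at h
  rw [Bool.or_eq_true, Bool.and_eq_true, Bool.and_eq_true] at h
  rcases h with ⟨⟨h, _⟩, _⟩ | h
  · exact hV.lo c h
  · have hx : (P.ev b A).t ≠ 0 → P.Q + 9 ≤ (P.ev b A).x + 2 * A := fun h0 =>
      (hV.quiet h0).2.2.2.2.1
    have h1 := hV.ok.t1
    unfold isDst at h
    split_ifs at h with e1 e2 e3 e4
    · have := hx (by omega)
      have := h1 e1
      have := of_decide_eq_true h
      omega
    · have := hx (by omega)
      have := of_decide_eq_true h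
      omega
    · have := hx (by omega)
      have := of_decide_eq_true h
      omega
    · have := hx (by omega)
      have := of_decide_eq_true h
      omega

private theorem W_of_W' {b : Bool} {A c : ℕ} (h : P.W' b A c = true) :
    P.W b (A + 1) c = true := by
  change (P.W' b A c || (P.entry b (A + 1) && decide (c = P.entc (A + 1)))) = true
  rw [h, Bool.true_or]

/-- the wires at the bottom: those of the channels `en 42 k` -/
private theorem bottom (hP : P.Ok) {b : Bool} {c : ℕ} (h : P.W' b (P.QQ - 1) c = true) :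
    ∃ k < P.N, c = P.en 42 k ∧ c + P.Q = P.ex 42 k ∧ 40 < c := by
  have hQQ : 0 < P.QQ := by
    have := K_pos hP
    have hK : P.K = 6 * P.QQ := rfl
    omega
  obtain ⟨h1, h2, h3, h4⟩ := Ok_bounds hP
  have hW : P.W b P.QQ c = true := by
    have e : P.QQ = P.QQ - 1 + 1 := by omega
    rw [e]
    exact W_of_W' h
  have hb : P.base 85 ≤ P.QQ := by
    unfold Par.base
    omega
  obtain ⟨k, hk, hc⟩ := (sw_tail hP b hb le_rfl c).1 hW
  have hQ : P.Q = 2 * P.QQ := rfl
  refine ⟨k, hk, hc, ?_, ?_⟩
  · rw [hc]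
    unfold Par.en Par.ex Par.base
    omega
  · rw [hc]
    unfold Par.en Par.base
    omega

/-- wall in row phase 5: `(i-1, j-1)` higher; `(i+1, j+1)` is `1` or the next wall (also in the
block below, where the channel is `c + Q`; bottom wires are far from the row-`0` zeros of type 1). -/
theorem rc_w5 (hP : P.Ok) (hf : AllFin P) (hi : i < P.K) (hj : j < P.K)
    (hr : i % 6 = 5) (h : P.bx (P.arr bi bj) i (j + P.K - i - 1) = false) :
    RC P (bi * P.K + i) (bj * P.K + j) := by
  have hK : P.K = 6 * P.QQ := rfl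
  have hQ : P.Q = 2 * P.QQ := rfl
  have hKp := K_pos hP
  have hA : i / 6 < P.QQ := by omega
  have h' := h
  rw [bx5 hr] at h'
  have hx0 : (j + P.K - i - 1) % 3 = 0 := by
    by_contra hx
    rw [if_neg hx] at h'
    exact absurd h' (by decide)
  rw [if_pos hx0, Bool.not_eq_false'] at h'
  have hW' := cl4_W' h'
  have hlo := W'_lo hP hA hW'
  have hj0 : j % 3 = 0 := by omega
  have hj3 : 3 ≤ j := by omega
  have hi1 : (i - 1) / 6 = i / 6 := by omega
  have hi2 : (i + 1) / 6 = i / 6 + 1 := by omega
  have eI1 : bi * P.K + i - 1 = bi * P.K + (i - 1) := by omega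
  have eJ1 : bj * P.K + j - 1 = bj * P.K + (j - 1) := by omega
  have eJ2 : bj * P.K + j + 1 = bj * P.K + (j + 1) := by omega
  have eJ3 : bj * P.K + (j + 1) + 1 = bj * P.K + (j + 2) := by omega
  have a1 : P.arr (bi * P.K + i) (bj * P.K + (j + 1)) = true := by
    rw [loc_arr hP bi bj hi (by omega), bx5 hr, if_neg (by omega)]
  have a2 : P.arr (bi * P.K + i) (bj * P.K + (j + 2)) = true := by
    rw [loc_arr hP bi bj hi (by omega), bx5 hr, if_neg (by omega)]
  have hw1 : rem data0 P.arr ⟨bi * P.K + i, bj * P.K + (j + 1), Lane.T 0⟩ =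
      rem data0 P.arr ⟨bi * P.K + i + 1, bj * P.K + (j + 2), Lane.T 0⟩ + 2 := by
    rw [rem_T1 hf a1, eJ3, rem_L1 hf a2]
  have hrk : P.rk (bi * P.K + i, bj * P.K + j) = 7 * P.K + 10 +
      2 * rem data0 P.arr ⟨bi * P.K + i, bj * P.K + (j + 1), Lane.T 0⟩ + 0 := by
    refine loc_s hP hi hj h ?_
    unfold Par.cls
    rw [if_neg (by omega), if_neg (by omega), if_neg (by omega), if_neg (by omega),
      if_neg (by omega), eJ2]
  have hpos : 0 < P.rk (bi * P.K + i, bj * P.K + j) := by rw [hrk]; omega
  have r0 : P.rk (bi * P.K + (i - 1), bj * P.K + j) = 0 := by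
    refine loc_one hP (by omega) hj ?_
    have hx : (j + P.K - (i - 1) - 1) / 3 = (j + P.K - i - 1) / 3 := by omega
    rw [bx4 (by omega), if_neg (by omega), if_pos (by omega), hi1, hx, hW', Bool.true_or]
  have r1 : P.rk (bi * P.K + (i - 1), bj * P.K + (j + 1)) = 0 := by
    refine loc_one hP (by omega) (by omega) ?_
    rw [bx4 (by omega), if_neg (by omega), if_neg (by omega)]
  have r2 : P.rk (bi * P.K + i, bj * P.K + (j + 1)) = 0 := by
    refine loc_one hP hi (by omega) ?_
    rw [bx5 hr, if_neg (by omega)]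
  have r6 : P.rk (bi * P.K + i, bj * P.K + (j - 1)) = 0 := by
    refine loc_one hP hi (by omega) ?_
    rw [bx5 hr, if_neg (by omega)]
  have hx7 : j - 1 + P.K - (i - 1) - 1 = j + P.K - i - 1 := by omega
  have r7 : P.rk (bi * P.K + (i - 1), bj * P.K + (j - 1)) = 7 * P.K + 10 +
      2 * rem data0 P.arr ⟨bi * P.K + (i - 1), bj * P.K + (j - 1) + 1, Lane.T 0⟩ + 0 := by
    refine loc_s hP (by omega) (by omega) ?_ ?_
    · rw [bx4 (by omega), hx7, if_pos hx0, hi1, h']
      rfl
    · unfold Par.cls
      rw [if_neg (by omega), if_neg (by omega), if_neg (by omega), if_neg (by omega),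
        if_pos (by omega), if_pos (by rw [hx7]; exact hx0)]
  have hw7 : rem data0 P.arr ⟨bi * P.K + (i - 1), bj * P.K + (j - 1) + 1, Lane.T 0⟩ =
      rem data0 P.arr ⟨bi * P.K + i, bj * P.K + (j + 1), Lane.T 0⟩ + 2 := by
    have e : bj * P.K + (j - 1) + 1 = bj * P.K + j := by omega
    have e' : bi * P.K + (i - 1) + 1 = bi * P.K + i := by omega
    have a0 : P.arr (bi * P.K + (i - 1)) (bj * P.K + j) = true := by
      have hx : (j + P.K - (i - 1) - 1) / 3 = (j + P.K - i - 1) / 3 := by omega
      rw [loc_arr hP bi bj (by omega) hj, bx4 (by omega), if_neg (by omega), if_pos (by omega),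
        hi1, hx, hW', Bool.true_or]
    have a3 : P.arr (bi * P.K + (i - 1)) (bj * P.K + (j + 1)) = true := by
      rw [loc_arr hP bi bj (by omega) (by omega), bx4 (by omega), if_neg (by omega),
        if_neg (by omega)]
    rw [e, rem_T1 hf a0, eJ2, rem_L1 hf a3, e']
  -- the row below
  have hdown : P.rk (bi * P.K + i + 1, bj * P.K + (j + 1)) < P.rk (bi * P.K + i, bj * P.K + j) ∧
      P.rk (bi * P.K + i + 1, bj * P.K + j) = 0 ∧
      P.rk (bi * P.K + i + 1, bj * P.K + (j - 1)) = 0 := by
    by_cases hiK : i + 1 < P.K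
    · have eI2 : bi * P.K + i + 1 = bi * P.K + (i + 1) := by omega
      have hA1 : i / 6 + 1 < P.QQ := by omega
      have hWs : P.W (P.arr bi bj) (i / 6 + 1) ((j + P.K - i - 1) / 3) = true :=
        W_of_W' hW'
      have hz : P.zrow (P.arr bi bj) ((i + 1) / 6) = false := by
        rw [hi2, Bool.eq_false_iff]
        intro hz
        have := (va_all hP (P.arr bi bj) (i / 6 + 1) hA1).zr hz
        rw [this.1] at hWs
        exact absurd hWs (by decide)
      refine ⟨?_, ?_, ?_⟩
      · have hx : j + 1 + P.K - (i + 1) - 1 = j + P.K - i - 1 := by omega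
        by_cases hcl : P.cl (P.arr bi bj) (i / 6 + 1) ((j + P.K - i - 1) / 3) = true
        · have b1 : P.bx (P.arr bi bj) (i + 1) (j + 1 + P.K - (i + 1) - 1) = false := by
            rw [bx0 (by omega) hz (by omega), hx, if_pos hx0, hi2, hcl]
            rfl
          have := loc_s hP (i := i + 1) (j := j + 1) (by omega) (by omega) b1
            (p := ⟨bi * P.K + (i + 1), bj * P.K + (j + 1) + 1, Lane.T 0⟩) (t := 0) (by
            unfold Par.cls
            rw [if_pos (by omega), if_neg (by rw [hz]; decide), if_neg (by omega)])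
          rw [hrk, hw1, eI2, this, eJ3]
          omega
        · rw [Bool.not_eq_true] at hcl
          have b1 : P.bx (P.arr bi bj) (i + 1) (j + 1 + P.K - (i + 1) - 1) = true := by
            rw [bx0 (by omega) hz (by omega), hx, if_pos hx0, hi2, hcl]
            rfl
          rw [eI2, loc_one hP (by omega) (by omega) b1]
          exact hpos
      · rw [eI2]
        refine loc_one hP hiK hj ?_
        rw [bx0 (by omega) hz (by omega), if_neg (by omega)]
      · rw [eI2]
        refine loc_one hP hiK (by omega) ?_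
        rw [bx0 (by omega) hz (by omega), if_neg (by omega)]
    · have hiK' : i + 1 = P.K := by omega
      have eI2 : bi * P.K + i + 1 = (bi + 1) * P.K + 0 := by
        rw [Nat.add_mul, Nat.one_mul]; omega
      have hAQ : i / 6 = P.QQ - 1 := by omega
      have hx : j + P.K - i - 1 = j := by omega
      rw [hAQ, hx] at hW'
      obtain ⟨k, hk, -, hex, h40⟩ := bottom hP hW'
      have hz : P.zrow (P.arr (bi + 1) bj) (0 / 6) = false := by
        have hb := Ok_bounds hP
        have h0 : ¬ P.H0 ≤ 0 / 6 := by unfold Par.H0; omega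
        unfold Par.zrow
        rw [decide_eq_false h0, Bool.and_false, Bool.false_and, Bool.false_and]
      refine ⟨?_, ?_, ?_⟩
      · by_cases hcl : P.cl (P.arr (bi + 1) bj) (0 / 6) ((j + 1 + P.K - 0 - 1) / 3) = true
        · have b1 : P.bx (P.arr (bi + 1) bj) 0 (j + 1 + P.K - 0 - 1) = false := by
            rw [bx0 (by omega) hz (by omega), if_pos (by omega), hcl]
            rfl
          have := loc_s hP (bi := bi + 1) (i := 0) (j := j + 1) (by omega) (by omega) b1
            (p := ⟨(bi + 1) * P.K + 0, bj * P.K + (j + 1) + 1, Lane.T 0⟩) (t := 0) (by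
            unfold Par.cls
            rw [if_pos (by omega), if_neg (by rw [hz]; decide), if_neg (by omega)])
          rw [hrk, hw1, eI2, this, eJ3]
          omega
        · rw [Bool.not_eq_true] at hcl
          have b1 : P.bx (P.arr (bi + 1) bj) 0 (j + 1 + P.K - 0 - 1) = true := by
            rw [bx0 (by omega) hz (by omega), if_pos (by omega), hcl]
            rfl
          rw [eI2, loc_one hP (by omega) (by omega) b1]
          exact hpos
      · rw [eI2]
        refine loc_one hP (by omega) hj ?_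
        rw [bx0 (by omega) hz (by omega), if_neg (by omega)]
      · rw [eI2]
        refine loc_one hP (by omega) (by omega) ?_
        rw [bx0 (by omega) hz (by omega), if_neg (by omega)]
  obtain ⟨r3, r4, r5⟩ := hdown
  refine rc_mk (by omega) (by omega) ![0, 0, 0, 0, 0, 0, 0, 2] (by decide) (by decide)
    ?_ ?_ ?_ ?_ ?_ ?_ ?_ ?_
  all_goals refine ⟨fun h0 => ?_, fun h0 => ?_⟩
  all_goals first | exact absurd h0 (by decide) | skip
  · rw [eI1, r0]; exact hpos
  · rw [eI1, eJ2, r1]; exact hpos
  · rw [eJ2, r2]; exact hpos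
  · rw [eJ2]; exact r3
  · rw [r4]; exact hpos
  · rw [eJ1, r5]; exact hpos
  · rw [eJ1, r6]; exact hpos
  · rw [eI1, eJ1, r7, hrk, hw7]; omega

end Pool.Agent.MP_fadef1_lc
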