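import Pool.Agent.Lib.MP_fadef1_lc.Defs

/-! Two topological lemmas. -/

namespace Pool.Agent.MP_fadef1_lc

/-- The eight neighbours of `(i,j)`, clockwise from above:
up, up-right, right, down-right, down, down-left, left, up-left. -/
def nbr (i j : ℕ) (k : Fin 8) : Option (ℕ × ℕ) :=
  match k.val with
  | 0 => if 1 ≤ i then some (i - 1, j) else none
  | 1 => if 1 ≤ i then some (i - 1, j + 1) else none
  | 2 => some (i, j + 1)
  | 3 => some (i + 1, j + 1)
  | 4 => some (i + 1, j)
  | 5 => if 1 ≤ j then some (i + 1, j - 1) else none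
  | 6 => if 1 ≤ j then some (i, j - 1) else none
  | _ => if 1 ≤ i ∧ 1 ≤ j then some (i - 1, j - 1) else none

/-- `st k = 0`: surely free, `1`: unknown, `2`: surely not free (or missing). The check: the free
indices form one arc (each free `k` whose successor is not free determines the end of an arc; there
is at most one such end), some even index is free, and each even index of status `1` has a free
cyclic neighbour. -/
def ringChk (st : Fin 8 → Fin 3) : Bool :=
  decide ((∃ k : Fin 8, k.val % 2 = 0 ∧ st k = 0) ∧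
    (∀ k l : Fin 8, st k = 0 → st (k + 1) ≠ 0 → st l = 0 → st (l + 1) ≠ 0 → k = l) ∧
    (∀ k : Fin 8, k.val % 2 = 0 → st k = 1 → st (k + 1) = 0 ∨ st (k - 1) = 0))

private theorem ring_adj_symm {u v : ℕ × ℕ} (h : Adj u v) : Adj v u := by
  unfold Adj at h ⊢
  omega

private theorem ring_even_adj (i j : ℕ) (k : Fin 8) (hk : k.val % 2 = 0) (c : ℕ × ℕ)
    (h : nbr i j k = some c) : Adj c (i, j) := by
  obtain ⟨a, b⟩ := c
  unfold Adj
  fin_cases k <;> simp [nbr] at h hk <;> simp only <;> omega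

private theorem ring_adj_even (i j : ℕ) (c : ℕ × ℕ) (h : Adj c (i, j)) :
    ∃ k : Fin 8, k.val % 2 = 0 ∧ nbr i j k = some c := by
  obtain ⟨a, b⟩ := c
  unfold Adj at h
  simp only at h
  rcases h with ⟨h, h' | h'⟩ | ⟨h, h' | h'⟩
  · exact ⟨2, rfl, by simp only [nbr]; rw [h, h']; rfl⟩
  · refine ⟨6, rfl, ?_⟩
    show (if 1 ≤ j then some (i, j - 1) else none) = some (a, b)
    rw [if_pos (by omega), h, h']
    rfl
  · exact ⟨4, rfl, by simp only [nbr]; rw [h, h']; rfl⟩
  · refine ⟨0, rfl, ?_⟩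
    show (if 1 ≤ i then some (i - 1, j) else none) = some (a, b)
    rw [if_pos (by omega), h, h']
    rfl

private theorem ring_succ (i j : ℕ) (k : Fin 8) (c d : ℕ × ℕ)
    (hc : nbr i j k = some c) (hd : nbr i j (k + 1) = some d) : Adj c d := by
  obtain ⟨a, b⟩ := c
  obtain ⟨a', b'⟩ := d
  unfold Adj
  fin_cases k <;> simp [nbr] at hc hd <;> simp only <;> omega

private theorem ring_walk (g : Fin 8 → Prop) (k : Fin 8) (hk : g k) (m : ℕ) :
    (∃ e, g e ∧ ¬ g (e + 1) ∧
      Relation.ReflTransGen (fun a b => g a ∧ g b ∧ (b = a + 1 ∨ a = b + 1)) k e) ∨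
    (g (k + (Fin.ofNat 8 m)) ∧
      Relation.ReflTransGen (fun a b => g a ∧ g b ∧ (b = a + 1 ∨ a = b + 1)) k
        (k + (Fin.ofNat 8 m))) := by
  classical
  induction m with
  | zero =>
    right
    have : k + Fin.ofNat 8 0 = k := by
      apply Fin.ext
      simp
    rw [this]
    exact ⟨hk, Relation.ReflTransGen.refl⟩
  | succ m ih =>
    rcases ih with h | ⟨h, hp⟩
    · exact Or.inl h
    · have e : k + Fin.ofNat 8 (m + 1) = k + Fin.ofNat 8 m + 1 := by
        apply Fin.ext
        simp [Fin.val_add]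
        omega
      by_cases h' : g (k + Fin.ofNat 8 m + 1)
      · right
        rw [e]
        exact ⟨h', hp.tail ⟨h, h', Or.inl rfl⟩⟩
      · left
        exact ⟨_, h, h', hp⟩

private theorem ring_path_symm (g : Fin 8 → Prop) {k l : Fin 8}
    (h : Relation.ReflTransGen (fun a b => g a ∧ g b ∧ (b = a + 1 ∨ a = b + 1)) k l) :
    Relation.ReflTransGen (fun a b => g a ∧ g b ∧ (b = a + 1 ∨ a = b + 1)) l k := by
  induction h with
  | refl => exact Relation.ReflTransGen.refl
  | tail _ hbc ih => exact Relation.ReflTransGen.head ⟨hbc.2.1, hbc.1, hbc.2.2.symm⟩ ih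

private theorem ring_arc (g : Fin 8 → Prop)
    (hu : ∀ k l : Fin 8, g k → ¬ g (k + 1) → g l → ¬ g (l + 1) → k = l) (k l : Fin 8)
    (hk : g k) (hl : g l) :
    Relation.ReflTransGen (fun a b => g a ∧ g b ∧ (b = a + 1 ∨ a = b + 1)) k l := by
  have e : ∀ a b : Fin 8, a + Fin.ofNat 8 (b - a).val = b := by decide
  rcases ring_walk g k hk (l - k).val with ⟨e1, h1, h1', hp1⟩ | ⟨_, hp⟩
  · rcases ring_walk g l hl (k - l).val with ⟨e2, h2, h2', hp2⟩ | ⟨_, hp⟩
    · have := hu e1 e2 h1 h1' h2 h2'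
      subst this
      exact hp1.trans (ring_path_symm g hp2)
    · rw [e] at hp
      exact ring_path_symm g hp
  · rw [e] at hp
    exact hp

/-- Soundness of the ring check: the free cells of the ring form an arc (or the full ring), whose
consecutive members are adjacent; an even cell of unknown status that happens to be free is adjacent
to a member of the arc. -/
theorem ring_sound (ρ : ℕ × ℕ → ℕ) (i j : ℕ) (st : Fin 8 → Fin 3) (hc : ringChk st = true)
    (hf : ∀ k, st k = 0 → ∃ c, nbr i j k = some c ∧ ρ c < ρ (i, j))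
    (hn : ∀ k c, st k = 2 → nbr i j k = some c → ρ (i, j) ≤ ρ c) :
    (∃ u, Adj u (i, j) ∧ ρ u < ρ (i, j)) ∧
    ∀ u u', Adj u (i, j) → Adj u' (i, j) → ρ u < ρ (i, j) → ρ u' < ρ (i, j) →
      Relation.ReflTransGen (fun a b => Adj a b ∧ ρ a < ρ (i, j) ∧ ρ b < ρ (i, j)) u u' := by
  unfold ringChk at hc
  rw [decide_eq_true_eq] at hc
  obtain ⟨⟨k0, hk0, hst0⟩, hend, hunk⟩ := hc
  have hpath : ∀ k l, st k = 0 → st l = 0 → ∀ c d, nbr i j k = some c → nbr i j l = some d →
      Relation.ReflTransGen (fun a b => Adj a b ∧ ρ a < ρ (i, j) ∧ ρ b < ρ (i, j)) c d := by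
    intro k l hk hl c d hc hd
    have hp := ring_arc (fun k => st k = 0) (fun k l h1 h2 h3 h4 => hend k l h1 h2 h3 h4) k l hk hl
    have key : ∀ m, Relation.ReflTransGen
        (fun a b => st a = 0 ∧ st b = 0 ∧ (b = a + 1 ∨ a = b + 1)) k m →
        ∀ e, nbr i j m = some e →
        Relation.ReflTransGen (fun a b => Adj a b ∧ ρ a < ρ (i, j) ∧ ρ b < ρ (i, j)) c e := by
      intro m hm
      induction hm with
      | refl =>
        intro e he
        rw [hc, Option.some.injEq] at he
        subst he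
        exact Relation.ReflTransGen.refl
      | @tail a b _ hab ih =>
        intro e he
        obtain ⟨ha, hb, hor⟩ := hab
        obtain ⟨ca, hca, hra⟩ := hf a ha
        obtain ⟨cb, hcb, hrb⟩ := hf b hb
        rw [hcb, Option.some.injEq] at he
        subst he
        refine (ih ca hca).tail ⟨?_, hra, hrb⟩
        rcases hor with rfl | rfl
        · exact ring_succ i j a ca cb hca hcb
        · exact ring_adj_symm (ring_succ i j b cb ca hcb hca)
    exact key l hp d hd
  have hnear : ∀ u, Adj u (i, j) → ρ u < ρ (i, j) → ∃ k c, st k = 0 ∧ nbr i j k = some c ∧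
      Relation.ReflTransGen (fun a b => Adj a b ∧ ρ a < ρ (i, j) ∧ ρ b < ρ (i, j)) u c := by
    intro u hu hlt
    obtain ⟨k, hk, hku⟩ := ring_adj_even i j u hu
    have h2 : st k ≠ 2 := by
      intro h
      have := hn k u h hku
      omega
    have h3 : st k = 0 ∨ st k = 1 := by
      have h4 : ∀ x : Fin 3, x ≠ 2 → x = 0 ∨ x = 1 := by decide
      exact h4 _ h2
    rcases h3 with h3 | h3
    · exact ⟨k, u, h3, hku, Relation.ReflTransGen.refl⟩
    · rcases hunk k hk h3 with h | h
      · obtain ⟨c, hc, hrc⟩ := hf _ h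
        exact ⟨_, c, h, hc, Relation.ReflTransGen.single ⟨ring_succ i j k u c hku hc, hlt, hrc⟩⟩
      · obtain ⟨c, hc, hrc⟩ := hf _ h
        refine ⟨_, c, h, hc, Relation.ReflTransGen.single ⟨?_, hlt, hrc⟩⟩
        have e : k - 1 + 1 = k := by
          have : ∀ k : Fin 8, k - 1 + 1 = k := by decide
          exact this k
        exact ring_adj_symm (ring_succ i j (k - 1) c u hc (by rw [e]; exact hku))
  have hsymm : ∀ a b, Relation.ReflTransGen
      (fun a b => Adj a b ∧ ρ a < ρ (i, j) ∧ ρ b < ρ (i, j)) a b → Relation.ReflTransGen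
      (fun a b => Adj a b ∧ ρ a < ρ (i, j) ∧ ρ b < ρ (i, j)) b a := by
    intro a b h
    induction h with
    | refl => exact Relation.ReflTransGen.refl
    | tail _ hbc ih =>
      exact Relation.ReflTransGen.head ⟨ring_adj_symm hbc.1, hbc.2.2, hbc.2.1⟩ ih
  refine ⟨?_, ?_⟩
  · obtain ⟨c, hc, hrc⟩ := hf k0 hst0
    exact ⟨c, ring_even_adj i j k0 hk0 c hc, hrc⟩
  · intro u u' hu hu' hlt hlt'
    obtain ⟨k, c, hk, hc, hp⟩ := hnear u hu hlt
    obtain ⟨l, d, hl, hd, hq⟩ := hnear u' hu' hlt'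
    exact (hp.trans (hpath k l hk hl c d hc hd)).trans (hsymm _ _ hq)

end Pool.Agent.MP_fadef1_lc
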